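import Pool.Agent.H51.CN.Reduction

/-!
# Submultiplicativity of `W`
-/

open scoped Nat
open Finset Equiv

namespace Pool.Agent.H51.CN

theorem permanent_fromBlocks {m n : Type*} [Fintype m] [Fintype n] [DecidableEq m] [DecidableEq n]
    (A : Matrix m m ℂ) (D : Matrix n n ℂ) :
    (Matrix.fromBlocks A 0 0 D).permanent = A.permanent * D.permanent := by
  classical
  unfold Matrix.permanent
  rw [sum_mul_sum, ← Finset.sum_product', univ_product_univ]
  symm
  refine Finset.sum_of_injOn (fun σ : Perm m × Perm n => Perm.sumCongr σ.1 σ.2) ?_ ?_ ?_ ?_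
  · intro σ₁ _ σ₂ _ h
    have h2 : ∀ x, Perm.sumCongr σ₁.fst σ₁.snd x = Perm.sumCongr σ₂.fst σ₂.snd x :=
      DFunLike.congr_fun h
    simp only [Sum.map_inr, Sum.map_inl, Perm.sumCongr_apply, Sum.forall, Sum.inl.injEq,
      Sum.inr.injEq] at h2
    ext x
    · exact h2.left x
    · exact h2.right x
  · intro σ _
    simp
  · rintro σ - hσn
    have h1 : ¬∀ x, ∃ y, Sum.inl y = σ (Sum.inl x) := by
      intro h
      apply hσn
      have h3 : Set.MapsTo σ (Set.range (Sum.inl : m → m ⊕ n)) (Set.range (Sum.inl : m → m ⊕ n)) := by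
        rintro _ ⟨x, rfl⟩
        exact h x
      obtain ⟨σ₁₂, hσ₁₂⟩ := Perm.mem_sumCongrHom_range_of_perm_mapsTo_inl h3
      exact ⟨σ₁₂, by simp, hσ₁₂⟩
    obtain ⟨a, ha⟩ := not_forall.mp h1
    rcases hx : σ (Sum.inl a) with a2 | b
    · exact absurd hx.symm ((not_exists.mp ha) a2)
    · refine Finset.prod_eq_zero (Finset.mem_univ (Sum.inl a)) ?_
      rw [hx, Matrix.fromBlocks_apply₂₁, Matrix.zero_apply]
  · intro σ _
    rw [Fintype.prod_sum_type]
    simp

/-- Permanents of words in the columns of a block diagonal matrix. -/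
theorem norm_permanent_block_le {m n : ℕ} (a : Matrix (Fin m) (Fin m) ℂ)
    (b : Matrix (Fin n) (Fin n) ℂ) (κ : Fin m ⊕ Fin n → Fin m ⊕ Fin n) :
    ‖((Matrix.fromBlocks a 0 0 b).submatrix id κ).permanent‖ ≤ pmax a * pmax b := by
  classical
  by_cases hcard : Fintype.card {j // (κ j).isLeft = true} = Fintype.card
      {j : Fin m ⊕ Fin n // j.isLeft = true}
  · -- reorder the columns
    obtain ⟨e⟩ := Fintype.card_eq.mp hcard.symm
    let ρ : Perm (Fin m ⊕ Fin n) := e.extendSubtype
    have hl : ∀ j : Fin m ⊕ Fin n, j.isLeft = true → (κ (ρ j)).isLeft = true :=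
      fun j hj => e.extendSubtype_mem j hj
    have hr : ∀ j : Fin m ⊕ Fin n, ¬ j.isLeft = true → ¬ (κ (ρ j)).isLeft = true :=
      fun j hj => e.extendSubtype_not_mem j hj
    have h1 : ∀ j : Fin m, ∃ k : Fin m, κ (ρ (Sum.inl j)) = Sum.inl k := by
      intro j
      have := hl (Sum.inl j) rfl
      rcases h : κ (ρ (Sum.inl j)) with k | k
      · exact ⟨k, rfl⟩
      · rw [h] at this; simp at this
    have h2 : ∀ j : Fin n, ∃ k : Fin n, κ (ρ (Sum.inr j)) = Sum.inr k := by
      intro j
      have := hr (Sum.inr j) (by simp)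
      rcases h : κ (ρ (Sum.inr j)) with k | k
      · rw [h] at this; simp at this
      · exact ⟨k, rfl⟩
    choose k1 hk1 using h1
    choose k2 hk2 using h2
    have h3 : ((Matrix.fromBlocks a 0 0 b).submatrix id κ).permanent
        = (((Matrix.fromBlocks a 0 0 b).submatrix id κ).submatrix id ρ).permanent :=
      (Matrix.permanent_permute_rows ρ _).symm
    have h4 : ((Matrix.fromBlocks a 0 0 b).submatrix id κ).submatrix id ρ
        = Matrix.fromBlocks (a.submatrix id k1) 0 0 (b.submatrix id k2) := by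
      ext i j
      rcases i with i | i <;> rcases j with j | j <;>
        simp [Matrix.submatrix_apply, hk1, hk2]
    rw [h3, h4, permanent_fromBlocks, norm_mul]
    exact mul_le_mul (le_pmax a k1) (le_pmax b k2) (norm_nonneg _) (pmax_nonneg a)
  · -- every term vanishes
    have h0 : ((Matrix.fromBlocks a 0 0 b).submatrix id κ).permanent = 0 := by
      unfold Matrix.permanent
      refine Finset.sum_eq_zero fun σ _ => ?_
      by_contra hne
      have hne' := Finset.prod_ne_zero_iff.mp hne
      apply hcard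
      have hiff : ∀ j, (κ j).isLeft = true ↔ (σ j).isLeft = true := by
        intro j
        have h5 := hne' j (Finset.mem_univ j)
        rw [Matrix.submatrix_apply, id] at h5
        rcases hs : σ j with s | s <;> rcases hk : κ j with t | t
        · simp
        · rw [hs, hk] at h5
          simp at h5
        · rw [hs, hk] at h5
          simp at h5
        · simp
      refine Fintype.card_congr ?_
      exact σ.subtypeEquiv (fun j => hiff j)
    rw [h0, norm_zero]
    exact mul_nonneg (pmax_nonneg a) (pmax_nonneg b)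

/-- block diagonal sum of two square matrices -/
def bsum {m n : ℕ} (a : Matrix (Fin m) (Fin m) ℂ) (b : Matrix (Fin n) (Fin n) ℂ) :
    Matrix (Fin (m + n)) (Fin (m + n)) ℂ :=
  (Matrix.fromBlocks a 0 0 b).submatrix finSumFinEquiv.symm finSumFinEquiv.symm

theorem bsum_mem {m n : ℕ} {a : Matrix (Fin m) (Fin m) ℂ} {b : Matrix (Fin n) (Fin n) ℂ}
    (ha : a ∈ Adm m) (hb : b ∈ Adm n) : bsum a b ∈ Adm (m + n) := by
  constructor
  · intro i j
    unfold bsum
    rw [Matrix.submatrix_apply]
    rcases finSumFinEquiv.symm i with s | s <;> rcases finSumFinEquiv.symm j with t | t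
    · simpa using ha.1 s t
    · simp
    · simp
    · simpa using hb.1 s t
  · intro i
    unfold bsum
    rw [Matrix.submatrix_apply]
    rcases finSumFinEquiv.symm i with s | s
    · simpa using ha.2 s
    · simpa using hb.2 s

theorem pmax_bsum {m n : ℕ} (a : Matrix (Fin m) (Fin m) ℂ) (b : Matrix (Fin n) (Fin n) ℂ) :
    pmax (bsum a b) ≤ pmax a * pmax b := by
  refine pmax_le (mul_nonneg (pmax_nonneg a) (pmax_nonneg b)) fun k => ?_
  have h := norm_permanent_block_le a b
    (fun j => finSumFinEquiv.symm (k (finSumFinEquiv j)))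
  refine le_trans (le_of_eq ?_) h
  congr 1
  unfold Matrix.permanent bsum
  refine Fintype.sum_equiv (Equiv.permCongr finSumFinEquiv.symm) _ _ fun σ => ?_
  refine Fintype.prod_equiv finSumFinEquiv.symm _ _ fun i => ?_
  simp [Matrix.submatrix_apply, Equiv.permCongr_apply]

theorem W_add_le {m n : ℕ} : W (m + n) ≤ W m * W n := by
  -- first with `a` fixed
  have h1 : ∀ a ∈ Adm m, W (m + n) ≤ pmax a * W n := by
    intro a ha
    rcases (pmax_nonneg a).eq_or_lt with h0 | h0
    · rw [← h0, zero_mul]
      have h2 := (W_le (bsum_mem ha (one_mem_Adm n))).trans (pmax_bsum a 1)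
      rwa [← h0, zero_mul] at h2
    · rw [← div_le_iff₀' h0]
      refine le_W fun b hb => ?_
      rw [div_le_iff₀' h0]
      exact (W_le (bsum_mem ha hb)).trans (pmax_bsum a b)
  rcases (W_nonneg n).eq_or_lt with h0 | h0
  · have := h1 1 (one_mem_Adm m)
    rw [← h0, mul_zero] at this ⊢
    exact this
  · rw [← div_le_iff₀ h0]
    refine le_W fun a ha => ?_
    rw [div_le_iff₀ h0]
    exact h1 a ha

end Pool.Agent.H51.CN
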