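import Pool.Agent.H51.CN.Parseval
import Pool.Agent.H51.CN.Block

/-!
# Explicit bounds for `W`
-/

open scoped Nat
open Finset

namespace Pool.Agent.H51.CN

/-- the terms `z^m/m!²` at `z = 5/3` -/
noncomputable def gt (m : ℕ) : ℝ := (5 / 3 : ℝ) ^ m / (m ! : ℝ) ^ 2

theorem gt_pos (m : ℕ) : 0 < gt m := by
  unfold gt
  positivity

theorem gt_succ (m : ℕ) : gt (m + 1) = gt m * ((5 / 3) / ((m : ℝ) + 1) ^ 2) := by
  unfold gt
  rw [Nat.factorial_succ, pow_succ]
  push_cast
  have : (m ! : ℝ) ≠ 0 := by exact_mod_cast m.factorial_ne_zero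
  have h2 : (m : ℝ) + 1 ≠ 0 := by positivity
  field_simp

theorem sum_gt_aux (N : ℕ) (hN : 5 ≤ N) :
    ∑ m ∈ range N, gt m + 11 / 10 * gt N ≤ 35045 / 10000 := by
  induction N, hN using Nat.le_induction with
  | base =>
    simp only [Finset.sum_range_succ, Finset.sum_range_zero, gt, Nat.factorial]
    norm_num
  | succ N hN ih =>
    rw [Finset.sum_range_succ, gt_succ]
    have h1 : (5 / 3 : ℝ) / ((N : ℝ) + 1) ^ 2 ≤ 1 / 11 := by
      rw [div_le_div_iff₀ (by positivity) (by norm_num)]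
      have : (5 : ℝ) ≤ N := by exact_mod_cast hN
      nlinarith
    have h2 := gt_pos N
    have h3 : gt N * ((5 / 3) / ((N : ℝ) + 1) ^ 2) ≤ gt N * (1 / 11) :=
      mul_le_mul_of_nonneg_left h1 h2.le
    linarith

theorem sum_gt_le (n : ℕ) : ∑ m ∈ range (n + 1), gt m ≤ 35045 / 10000 := by
  have h1 := sum_gt_aux (n + 5) (by omega)
  have h2 : ∑ m ∈ range (n + 1), gt m ≤ ∑ m ∈ range (n + 5), gt m :=
    Finset.sum_le_sum_of_subset_of_nonneg (by
      intro x hx
      rw [Finset.mem_range] at hx ⊢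
      omega) (fun m _ _ => (gt_pos m).le)
  have h3 := gt_pos (n + 5)
  linarith

theorem sum_multinomial_le (n : ℕ) :
    (5 / 3 : ℝ) ^ n * ∑ α ∈ piAntidiag (univ : Finset (Fin n)) n,
      ((Nat.multinomial univ α : ℕ) : ℝ) ^ 2 ≤ (n ! : ℝ) ^ 2 * (35045 / 10000) ^ n := by
  have h1 : ∀ α ∈ piAntidiag (univ : Finset (Fin n)) n,
      (5 / 3 : ℝ) ^ n * ((Nat.multinomial univ α : ℕ) : ℝ) ^ 2
        = (n ! : ℝ) ^ 2 * ∏ j, gt (α j) := by
    intro α hα
    rw [mem_piAntidiag] at hα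
    have h2 := Nat.multinomial_spec univ α
    rw [hα.1] at h2
    have h3 : (∏ j, ((α j)! : ℝ)) * ((Nat.multinomial univ α : ℕ) : ℝ) = (n ! : ℝ) := by
      exact_mod_cast h2
    have h4 : ∏ j, gt (α j) = (5 / 3 : ℝ) ^ n / (∏ j, ((α j)! : ℝ)) ^ 2 := by
      unfold gt
      rw [Finset.prod_div_distrib, Finset.prod_pow_eq_pow_sum, hα.1, Finset.prod_pow]
    have h5 : (∏ j, ((α j)! : ℝ)) ≠ 0 :=
      Finset.prod_ne_zero_iff.mpr fun j _ => by exact_mod_cast (α j).factorial_ne_zero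
    rw [h4, ← h3]
    field_simp
  rw [Finset.mul_sum, Finset.sum_congr rfl h1, ← Finset.mul_sum]
  refine mul_le_mul_of_nonneg_left ?_ (by positivity)
  calc ∑ α ∈ piAntidiag (univ : Finset (Fin n)) n, ∏ j, gt (α j)
      ≤ ∑ α ∈ Fintype.piFinset (fun _ : Fin n => range (n + 1)), ∏ j, gt (α j) := by
        refine Finset.sum_le_sum_of_subset_of_nonneg ?_ fun α _ _ =>
          Finset.prod_nonneg fun j _ => (gt_pos _).le
        intro α hα
        rw [mem_piAntidiag] at hα
        rw [Fintype.mem_piFinset]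
        intro j
        rw [Finset.mem_range]
        have := Finset.single_le_sum (f := α) (fun _ _ => Nat.zero_le _) (Finset.mem_univ j)
        exact Nat.lt_succ_of_le (this.trans hα.1.le)
    _ = ∏ _j : Fin n, ∑ m ∈ range (n + 1), gt m := by
        rw [Finset.prod_univ_sum]
    _ = (∑ m ∈ range (n + 1), gt m) ^ n := by
        rw [Finset.prod_const, Finset.card_univ, Fintype.card_fin]
    _ ≤ (35045 / 10000) ^ n :=
        pow_le_pow_left₀ (Finset.sum_nonneg fun m _ => (gt_pos m).le) (sum_gt_le n) n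

theorem W_lower (n : ℕ) : (6896 / 10000 : ℝ) ^ n ≤ W n := by
  refine le_W fun a ha => ?_
  have hfac : (0 : ℝ) < n ! := by exact_mod_cast n.factorial_pos
  have h1 := pmax_lower ha.2
  have h2 := sum_multinomial_le n
  set S := ∑ α ∈ piAntidiag (univ : Finset (Fin n)) n, ((Nat.multinomial univ α : ℕ) : ℝ) ^ 2
    with hS
  have h3 : (5 / 3 : ℝ) ^ n ≤ pmax a ^ 2 * (35045 / 10000) ^ n := by
    calc (5 / 3 : ℝ) ^ n = (5 / 3 : ℝ) ^ n * 1 := by ring
      _ ≤ (5 / 3 : ℝ) ^ n * ((pmax a / n !) ^ 2 * S) :=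
          mul_le_mul_of_nonneg_left h1 (by positivity)
      _ = (pmax a / n !) ^ 2 * ((5 / 3 : ℝ) ^ n * S) := by ring
      _ ≤ (pmax a / n !) ^ 2 * ((n ! : ℝ) ^ 2 * (35045 / 10000) ^ n) :=
          mul_le_mul_of_nonneg_left h2 (by positivity)
      _ = pmax a ^ 2 * (35045 / 10000) ^ n := by
          field_simp
  have h4 : ((6896 / 10000 : ℝ) ^ n) ^ 2 * (35045 / 10000) ^ n ≤ (5 / 3 : ℝ) ^ n := by
    rw [← pow_mul, mul_comm n 2, pow_mul, ← mul_pow]
    exact pow_le_pow_left₀ (by norm_num) (by norm_num) n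
  have h5 : ((6896 / 10000 : ℝ) ^ n) ^ 2 ≤ pmax a ^ 2 :=
    le_of_mul_le_mul_right (h4.trans h3) (by positivity)
  exact (pow_le_pow_iff_left₀ (by positivity) (pmax_nonneg a) two_ne_zero).mp h5

theorem W_pos (n : ℕ) : 0 < W n := lt_of_lt_of_le (by positivity) (W_lower n)

theorem pmax_one_le (n : ℕ) : pmax (1 : Matrix (Fin n) (Fin n) ℂ) ≤ 1 := by
  classical
  refine pmax_le zero_le_one fun k => ?_
  by_cases hk : Function.Injective k
  · have hb : Function.Bijective k := Finite.injective_iff_bijective.mp hk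
    let e : Equiv.Perm (Fin n) := Equiv.ofBijective k hb
    have h1 : (1 : Matrix (Fin n) (Fin n) ℂ).submatrix id k
        = (1 : Matrix (Fin n) (Fin n) ℂ).submatrix id e := rfl
    rw [h1, Matrix.permanent_permute_rows, Matrix.permanent_one, norm_one]
  · have h1 : ((1 : Matrix (Fin n) (Fin n) ℂ).submatrix id k).permanent = 0 := by
      unfold Matrix.permanent
      refine Finset.sum_eq_zero fun σ _ => ?_
      by_contra hne
      apply hk
      have hne' := Finset.prod_ne_zero_iff.mp hne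
      have h2 : ∀ i, σ i = k i := by
        intro i
        by_contra h3
        apply hne' i (Finset.mem_univ i)
        rw [Matrix.submatrix_apply, id]
        exact Matrix.one_apply_ne h3
      intro i j hij
      rw [← h2, ← h2] at hij
      exact σ.injective hij
    rw [h1, norm_zero]
    exact zero_le_one

theorem W_le_one (n : ℕ) : W n ≤ 1 := (W_le (one_mem_Adm n)).trans (pmax_one_le n)

end Pool.Agent.H51.CN
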