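import Pool.Agent.H51.CN.Nested

/-!
# Soundness of the certificates
-/

open scoped Nat
open Finset

namespace Pool.Agent.H51.CN

theorem toC_norm_sq (c : ℤ × ℤ) : ‖toC c‖ ^ 2 = ((c.1 * c.1 + c.2 * c.2 : ℤ) : ℝ) := by
  unfold toC
  rw [← Complex.normSq_eq_norm_sq, Complex.normSq_apply]
  simp

theorem W_le_of_cert {n : ℕ} {D R : ℤ} {rs : List (List (ℤ × ℤ))} (h : cert n D R rs = true) :
    W n ≤ Real.sqrt R / (D : ℝ) ^ n := by
  unfold cert at h
  simp only [Bool.and_eq_true, decide_eq_true_eq, List.all_eq_true, beq_iff_eq,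
    List.mem_range] at h
  obtain ⟨⟨⟨⟨⟨⟨hD, hR⟩, hlen⟩, hrow⟩, hent⟩, hdiag⟩, hchk⟩ := h
  have hDr : (0 : ℝ) < D := by exact_mod_cast hD
  have hDn : ‖(D : ℂ)‖ = D := by
    rw [Complex.norm_intCast, abs_of_pos hDr]
  let b : Fin n → Fin n → ℂ := fun i j => toC ((rs.getD i []).getD j (0, 0))
  let a : Matrix (Fin n) (Fin n) ℂ := fun i j => (D : ℂ)⁻¹ * b i j
  have hmemrow : ∀ i : Fin n, rs.getD i [] ∈ rs := by
    intro i
    have hi : (i : ℕ) < rs.length := by rw [hlen]; exact i.2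
    rw [List.getD_eq_getElem _ _ hi]
    exact List.getElem_mem hi
  have hmem : ∀ i j : Fin n, (rs.getD i []).getD j (0, 0) ∈ rs.getD i [] := by
    intro i j
    have hj : (j : ℕ) < (rs.getD i []).length := by rw [hrow _ (hmemrow i)]; exact j.2
    rw [List.getD_eq_getElem _ _ hj]
    exact List.getElem_mem hj
  have ha : a ∈ Adm n := by
    constructor
    · intro i j
      have h1 := hent _ (hmemrow i) _ (hmem i j)
      have h2 : ‖b i j‖ ^ 2 ≤ (D : ℝ) ^ 2 := by
        rw [toC_norm_sq, pow_two]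
        exact_mod_cast h1
      have h3 : ‖b i j‖ ≤ D := (pow_le_pow_iff_left₀ (norm_nonneg _) hDr.le two_ne_zero).mp h2
      change ‖(D : ℂ)⁻¹ * b i j‖ ≤ 1
      rw [norm_mul, norm_inv, hDn, inv_mul_le_iff₀ hDr, mul_one]
      exact h3
    · intro i
      have h1 := hdiag i i.2
      have h2 : b i i = (D : ℂ) := by
        change toC ((rs.getD i []).getD i (0, 0)) = _
        rw [h1]
        simp [toC]
      change ‖(D : ℂ)⁻¹ * b i i‖ = 1
      rw [h2, inv_mul_cancel₀, norm_one]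
      exact_mod_cast hD.ne'
  refine (W_le ha).trans (pmax_le (by positivity) fun k => ?_)
  have h1 : (a.submatrix id k).permanent
      = ((D : ℂ)⁻¹) ^ n * (Matrix.of fun i j => b i (k j)).permanent := by
    have h2 : a.submatrix id k = (D : ℂ)⁻¹ • (Matrix.of fun i j => b i (k j)) := by
      ext i j
      rfl
    rw [h2, Matrix.permanent_smul, Fintype.card_fin]
  have h3 := val_rowsProd n rs hlen (fun r hr => hrow r hr) (cnt k)
  rw [h1, permanent_eq_q, ← h3, norm_mul, norm_pow, norm_inv, hDn, inv_pow, inv_mul_eq_div]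
  refine div_le_div_of_nonneg_right ?_ (by positivity)
  exact Real.le_sqrt_of_sq_le (NP.chk_sound R hR n _ hchk _)

end Pool.Agent.H51.CN
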