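import Pool.Agent.H51.CN.Cert

/-!
# Certificates for `W 3` and `W 7`
-/

namespace Pool.Agent.H51.CN

def m3 : List (List (ℤ × ℤ)) := [[(5000, 0), (738, -1590), (1166, -1036)],
  [(-390, -1510), (5000, 0), (1003, -1438)],
  [(-1079, -1382), (-647, -1419), (5000, 0)]]

theorem m3_ok : cert 3 5000 6732860415392048288000 m3 = true := by decide +kernel

def m7 : List (List (ℤ × ℤ)) := [[(5000, 0), (630, -20), (1048, -272), (-262, 916), (-490, -899), (-156, -1237), (-336, -904)],
  [(-929, -100), (5000, 0), (-1014, 331), (216, -552), (-895, 897), (-986, -465), (310, -920)],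
  [(-1076, -555), (740, 426), (5000, 0), (469, 952), (-859, -62), (365, 598), (-542, 996)],
  [(92, 646), (-420, -1146), (-644, 894), (5000, 0), (378, -850), (-798, 284), (94, 1206)],
  [(570, -868), (762, 831), (782, 67), (-518, -874), (5000, 0), (-964, -573), (-104, 706)],
  [(380, -934), (1086, -296), (-583, 820), (972, 475), (677, -358), (5000, 0), (-67, -872)],
  [(330, -984), (-386, -882), (362, 712), (-230, 1194), (247, 976), (206, -862), (5000, 0)]]

theorem m7_ok : cert 7 5000 409312798073419620275182977835211171232274957092692 m7 = true := by decide +kernel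

end Pool.Agent.H51.CN

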