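import Mathlib

/-!
# Symmetric products of operators on the tensor power of a Hilbert space
-/

open scoped InnerProductSpace Nat

namespace Pool.Agent.H51.CN

section Defs

variable {n : ℕ} {H T : Type*} [NormedAddCommGroup H] [InnerProductSpace ℂ H]
  [NormedAddCommGroup T] [InnerProductSpace ℂ T]

/-- The multilinear map `τ`, thought of as `(x₁, …, xₙ) ↦ x₁ ⊗ ⋯ ⊗ xₙ`, makes the Hilbert space
`T` into the `n`-th Hilbert space tensor power of `H`: it has the inner products of elementary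
tensors, and the elementary tensors span a dense subspace. -/
structure IsTensorPower (τ : MultilinearMap ℂ (fun _ : Fin n => H) T) : Prop where
  inner_eq : ∀ x y : Fin n → H, ⟪τ x, τ y⟫_ℂ = ∏ i, ⟪x i, y i⟫_ℂ
  dense : (Submodule.span ℂ (Set.range τ)).topologicalClosure = ⊤

/-- The symmetric product `x₁ ⊙ ⋯ ⊙ xₙ = (1/n!) ∑_π x_{π(1)} ⊗ ⋯ ⊗ x_{π(n)}` of vectors. -/
noncomputable def odot (τ : MultilinearMap ℂ (fun _ : Fin n => H) T) (x : Fin n → H) : T :=
  ((n ! : ℂ)⁻¹) • ∑ π : Equiv.Perm (Fin n), τ (fun i => x (π i))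

/-- The symmetric subspace, the closed linear span of all `x₁ ⊙ ⋯ ⊙ xₙ`. -/
noncomputable def symSub (τ : MultilinearMap ℂ (fun _ : Fin n => H) T) : Submodule ℂ T :=
  (Submodule.span ℂ (Set.range (odot τ))).topologicalClosure

/-- `R` is the operator `(1/n!) ∑_π A_{π(1)} ⊗ ⋯ ⊗ A_{π(n)}` on the tensor power. -/
def IsAvg (τ : MultilinearMap ℂ (fun _ : Fin n => H) T) (A : Fin n → H →L[ℂ] H)
    (R : T →L[ℂ] T) : Prop :=
  ∀ x : Fin n → H, R (τ x) = ((n ! : ℂ)⁻¹) • ∑ π : Equiv.Perm (Fin n), τ (fun i => A (π i) (x i))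

end Defs

/-- The set of all norms `‖A₁ ⊙ ⋯ ⊙ Aₙ‖` (the norm of the restriction of
`(1/n!) ∑_π A_{π(1)} ⊗ ⋯ ⊗ A_{π(n)}` to the symmetric subspace), for commuting normal operators
`A₁, …, Aₙ` of norm one on complex Hilbert spaces `H ≠ 0`. -/
def normSet.{u} (n : ℕ) : Set ℝ :=
  {r | ∃ (H T : Type u) (_ : NormedAddCommGroup H) (_ : InnerProductSpace ℂ H)
    (_ : CompleteSpace H) (_ : NormedAddCommGroup T) (_ : InnerProductSpace ℂ T)
    (_ : CompleteSpace T) (τ : MultilinearMap ℂ (fun _ : Fin n => H) T)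
    (A : Fin n → H →L[ℂ] H) (R : T →L[ℂ] T),
    Nontrivial H ∧ IsTensorPower τ ∧ (∀ i j, Commute (A i) (A j)) ∧ (∀ i, IsStarNormal (A i)) ∧
    (∀ i, ‖A i‖ = 1) ∧ IsAvg τ A R ∧ r = ‖R.comp (symSub τ).subtypeL‖}

/-- The constant `cₙ`: the infimum of `‖A₁ ⊙ ⋯ ⊙ Aₙ‖` over all commuting normal operators of
norm one. -/
noncomputable def c.{u} (n : ℕ) : ℝ := sInf (normSet.{u} n)

end Pool.Agent.H51.CN
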