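import Pool.Agent.H51.CN.Bounds

/-!
# Attainment, the value of `W 2`, and the growth rate
-/

open scoped Nat
open Finset Filter Topology

namespace Pool.Agent.H51.CN

theorem W_sq_lower (n : ℕ) :
    1 ≤ (W n / n !) ^ 2 * ∑ α ∈ piAntidiag (univ : Finset (Fin n)) n,
      ((Nat.multinomial univ α : ℕ) : ℝ) ^ 2 := by
  have hfac : (0 : ℝ) < n ! := by exact_mod_cast n.factorial_pos
  set S := ∑ α ∈ piAntidiag (univ : Finset (Fin n)) n, ((Nat.multinomial univ α : ℕ) : ℝ) ^ 2
    with hS
  have hS0 : 0 ≤ S := Finset.sum_nonneg fun _ _ => by positivity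
  have hSpos : 0 < S := by
    rcases hS0.eq_or_lt with h | h
    · have := pmax_lower (one_mem_Adm n).2
      rw [← hS, ← h, mul_zero] at this
      exact absurd this (by norm_num)
    · exact h
  have h1 : n ! / Real.sqrt S ≤ W n := by
    refine le_W fun a ha => ?_
    have h2 := pmax_lower ha.2
    rw [← hS] at h2
    rw [div_le_iff₀ (Real.sqrt_pos.mpr hSpos)]
    have h3 : (n ! : ℝ) ^ 2 ≤ (pmax a * Real.sqrt S) ^ 2 := by
      rw [mul_pow, Real.sq_sqrt hS0]
      rw [div_pow, div_mul_eq_mul_div, le_div_iff₀ (by positivity), one_mul] at h2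
      exact h2
    exact (pow_le_pow_iff_left₀ hfac.le (mul_nonneg (pmax_nonneg a) (Real.sqrt_nonneg _))
      two_ne_zero).mp h3
  have h4 : (n ! / Real.sqrt S) ^ 2 ≤ W n ^ 2 :=
    pow_le_pow_left₀ (by positivity) h1 2
  rw [div_pow, Real.sq_sqrt hS0, div_le_iff₀ hSpos] at h4
  rw [div_pow, div_mul_eq_mul_div, le_div_iff₀ (by positivity), one_mul]
  exact h4

theorem continuous_pmax (n : ℕ) : Continuous (pmax (n := n)) := by
  have : Nonempty (Fin n → Fin n) := ⟨id⟩
  have h : (pmax (n := n)) = fun a : Matrix (Fin n) (Fin n) ℂ =>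
      (univ : Finset (Fin n → Fin n)).sup' univ_nonempty
        (fun k => ‖(a.submatrix id k).permanent‖) := by
    ext a
    unfold pmax
    rw [Finset.sup'_univ_eq_ciSup]
  rw [h]
  refine Continuous.finset_sup'_apply _ fun k _ => ?_
  unfold Matrix.permanent
  refine continuous_norm.comp (continuous_finset_sum _ fun σ _ => continuous_finset_prod _
    fun i _ => ?_)
  exact (continuous_apply (k i)).comp (continuous_apply (σ i))

theorem isCompact_Adm (n : ℕ) : IsCompact (Adm n) := by
  have h1 : IsCompact (Set.pi Set.univ fun _ : Fin n => Set.pi Set.univ fun _ : Fin n =>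
      Metric.closedBall (0 : ℂ) 1) :=
    isCompact_univ_pi fun _ => isCompact_univ_pi fun _ => isCompact_closedBall 0 1
  refine h1.of_isClosed_subset ?_ ?_
  · have h2 : Adm n = (⋂ i : Fin n, ⋂ j : Fin n, {a : Matrix (Fin n) (Fin n) ℂ | ‖a i j‖ ≤ 1}) ∩
        ⋂ i : Fin n, {a : Matrix (Fin n) (Fin n) ℂ | ‖a i i‖ = 1} := by
      ext a
      simp [Adm]
    have hc : ∀ i j : Fin n, Continuous fun a : Matrix (Fin n) (Fin n) ℂ => ‖a i j‖ :=
      fun i j => continuous_norm.comp ((continuous_apply j).comp (continuous_apply i))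
    rw [h2]
    exact (isClosed_iInter fun i => isClosed_iInter fun j =>
      isClosed_le (hc i j) continuous_const).inter
      (isClosed_iInter fun i => isClosed_eq (hc i i) continuous_const)
  · intro a ha
    simp only [Set.mem_pi, Set.mem_univ, true_imp_iff, Metric.mem_closedBall, dist_zero_right]
    exact fun i j => ha.1 i j

theorem exists_W_eq (n : ℕ) : ∃ a ∈ Adm n, pmax a = W n := by
  obtain ⟨a, ha, hmin⟩ := (isCompact_Adm n).exists_isMinOn ⟨1, one_mem_Adm n⟩
    (continuous_pmax n).continuousOn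
  exact ⟨a, ha, le_antisymm (le_W fun b hb => hmin hb) (W_le ha)⟩

theorem permanent_two (M : Matrix (Fin 2) (Fin 2) ℂ) :
    M.permanent = M 0 0 * M 1 1 + M 1 0 * M 0 1 := by
  unfold Matrix.permanent
  rw [show (univ : Finset (Equiv.Perm (Fin 2))) = {1, Equiv.swap 0 1} by decide]
  rw [Finset.sum_pair (by decide)]
  simp [Fin.prod_univ_two]

theorem W_two : W 2 = 2 * (Real.sqrt 2 - 1) := by
  have hs : Real.sqrt 2 ^ 2 = 2 := Real.sq_sqrt (by norm_num)
  have hs1 : 1 ≤ Real.sqrt 2 := by
    rw [Real.one_le_sqrt]; norm_num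
  have hs2 : Real.sqrt 2 ≤ 3 / 2 := by
    rw [Real.sqrt_le_left (by norm_num)]; norm_num
  set t := Real.sqrt 2 - 1 with ht
  have ht0 : 0 ≤ t := by linarith
  have ht1 : t ≤ 1 := by linarith
  have htt : 1 - t ^ 2 = 2 * t := by
    rw [ht]; nlinarith
  apply le_antisymm
  · let a : Matrix (Fin 2) (Fin 2) ℂ := !![1, (t : ℂ); -(t : ℂ), 1]
    have ha : a ∈ Adm 2 := by
      constructor
      · intro i j
        fin_cases i <;> fin_cases j <;> simp [a, abs_of_nonneg ht0, ht1]
      · intro i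
        fin_cases i <;> simp [a]
    refine (W_le ha).trans (pmax_le (by positivity) fun k => ?_)
    rw [permanent_two]
    simp only [Matrix.submatrix_apply, id]
    have key : ∀ j j' : Fin 2, ‖a 0 j * a 1 j' + a 1 j * a 0 j'‖ ≤ 2 * t := by
      intro j j'
      fin_cases j <;> fin_cases j'
      · have : a 0 0 * a 1 0 + a 1 0 * a 0 0 = ((-(2 * t) : ℝ) : ℂ) := by
          simp [a]; ring
        change ‖a 0 0 * a 1 0 + a 1 0 * a 0 0‖ ≤ 2 * t
        rw [this, Complex.norm_real, norm_neg, Real.norm_of_nonneg (by positivity)]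
      · have : a 0 0 * a 1 1 + a 1 0 * a 0 1 = ((1 - t ^ 2 : ℝ) : ℂ) := by
          simp [a]; ring
        change ‖a 0 0 * a 1 1 + a 1 0 * a 0 1‖ ≤ 2 * t
        rw [this, Complex.norm_real, htt, Real.norm_of_nonneg (by positivity)]
      · have : a 0 1 * a 1 0 + a 1 1 * a 0 0 = ((1 - t ^ 2 : ℝ) : ℂ) := by
          simp [a]; ring
        change ‖a 0 1 * a 1 0 + a 1 1 * a 0 0‖ ≤ 2 * t
        rw [this, Complex.norm_real, htt, Real.norm_of_nonneg (by positivity)]
      · have : a 0 1 * a 1 1 + a 1 1 * a 0 1 = ((2 * t : ℝ) : ℂ) := by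
          simp [a]; ring
        change ‖a 0 1 * a 1 1 + a 1 1 * a 0 1‖ ≤ 2 * t
        rw [this, Complex.norm_real, Real.norm_of_nonneg (by positivity)]
    exact key (k 0) (k 1)
  · refine le_W fun a ha => ?_
    set M := pmax a with hM
    have hM0 : 0 ≤ M := pmax_nonneg a
    have h00 := le_pmax a (fun _ => 0)
    have h11 := le_pmax a (fun _ => 1)
    have h01 := le_pmax a id
    rw [permanent_two] at h00 h11 h01
    simp only [Matrix.submatrix_apply, id] at h00 h11 h01
    rw [← hM] at h00 h11 h01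
    have e1 : a 0 0 * a 1 0 + a 1 0 * a 0 0 = 2 * (a 0 0 * a 1 0) := by ring
    have e2 : a 0 1 * a 1 1 + a 1 1 * a 0 1 = 2 * (a 0 1 * a 1 1) := by ring
    rw [e1, norm_mul, norm_mul, ha.2 0, one_mul, Complex.norm_ofNat] at h00
    rw [e2, norm_mul, norm_mul, ha.2 1, mul_one, Complex.norm_ofNat] at h11
    have h3 : ‖a 0 0 * a 1 1‖ ≤ ‖a 0 0 * a 1 1 + a 1 0 * a 0 1‖ + ‖a 1 0 * a 0 1‖ := by
      have := norm_sub_le (a 0 0 * a 1 1 + a 1 0 * a 0 1) (a 1 0 * a 0 1)
      simpa using this
    rw [norm_mul, ha.2 0, ha.2 1, norm_mul, one_mul] at h3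
    have h4 : ‖a 1 0‖ * ‖a 0 1‖ ≤ (M / 2) * (M / 2) :=
      mul_le_mul (by linarith) (by linarith) (norm_nonneg _) (by positivity)
    have h5 : 1 ≤ M + (M / 2) * (M / 2) := by linarith
    by_contra hcon
    push Not at hcon
    nlinarith

theorem W_subadd : Subadditive fun n => Real.log (W n) := by
  intro m n
  rw [← Real.log_mul (W_pos m).ne' (W_pos n).ne']
  exact Real.log_le_log (W_pos _) W_add_le

/-- The growth rate exists and is the infimum of all the `n`-th roots. -/
theorem exists_rate : ∃ θ : ℝ, 6896 / 10000 ≤ θ ∧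
    Tendsto (fun n : ℕ => W n ^ (1 / (n : ℝ))) atTop (𝓝 θ) ∧ ∀ n : ℕ, θ ^ n ≤ W n := by
  have hb : BddBelow (Set.range fun n : ℕ => Real.log (W n) / n) := by
    refine ⟨Real.log (6896 / 10000), ?_⟩
    rintro _ ⟨n, rfl⟩
    rcases Nat.eq_zero_or_pos n with rfl | hn
    · simp only [Nat.cast_zero, div_zero]
      exact Real.log_nonpos (by norm_num) (by norm_num)
    · have hn' : (0 : ℝ) < n := by exact_mod_cast hn
      change _ ≤ Real.log (W n) / n
      rw [le_div_iff₀ hn', mul_comm, ← Real.log_pow]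
      exact Real.log_le_log (by positivity) (W_lower n)
  have hlim := W_subadd.tendsto_lim hb
  have hroot : ∀ n : ℕ, W n ^ (1 / (n : ℝ)) = Real.exp (Real.log (W n) / n) := by
    intro n
    rw [Real.rpow_def_of_pos (W_pos n)]
    congr 1
    ring
  refine ⟨Real.exp W_subadd.lim, ?_, ?_, ?_⟩
  · have h1 : Tendsto (fun n : ℕ => W n ^ (1 / (n : ℝ))) atTop (𝓝 (Real.exp W_subadd.lim)) := by
      simp only [hroot]
      exact (Real.continuous_exp.tendsto _).comp hlim
    refine ge_of_tendsto h1 ?_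
    filter_upwards [eventually_gt_atTop 0] with n hn
    have hn' : (n : ℝ) ≠ 0 := by exact_mod_cast hn.ne'
    have h2 : (6896 / 10000 : ℝ) = ((6896 / 10000 : ℝ) ^ n) ^ (1 / (n : ℝ)) := by
      rw [← Real.rpow_natCast, ← Real.rpow_mul (by norm_num), mul_one_div_cancel hn',
        Real.rpow_one]
    rw [h2]
    exact Real.rpow_le_rpow (by positivity) (W_lower n) (by positivity)
  · simp only [hroot]
    exact (Real.continuous_exp.tendsto _).comp hlim
  · intro n
    rcases Nat.eq_zero_or_pos n with rfl | hn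
    · rw [pow_zero]
      have := W_lower 0
      simpa using this
    · have h1 := W_subadd.lim_le_div hb hn.ne'
      have hn' : (0 : ℝ) < n := by exact_mod_cast hn
      rw [le_div_iff₀ hn'] at h1
      rw [← Real.exp_nat_mul, mul_comm]
      exact (Real.exp_le_exp.mpr h1).trans_eq (Real.exp_log (W_pos n))

end Pool.Agent.H51.CN
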