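import Pool.Agent.H51.CN.Exact
import Pool.Agent.H51.CN.Data

/-!
# Bounds for `cₙ`
-/

open scoped Nat
open Finset Filter Topology

namespace Pool.Agent.H51.CN

theorem W_seven : W 7 ≤ (8245 / 10000 : ℝ) ^ 7 := by
  refine (W_le_of_cert m7_ok).trans ?_
  rw [div_le_iff₀ (by norm_num)]
  rw [Real.sqrt_le_left (by norm_num)]
  norm_num

theorem W_three : W 3 ≤ 6565 / 10000 := by
  refine (W_le_of_cert m3_ok).trans ?_
  rw [div_le_iff₀ (by norm_num)]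
  rw [Real.sqrt_le_left (by norm_num)]
  norm_num

theorem W_mul_seven (q : ℕ) : W (7 * q) ≤ (8245 / 10000 : ℝ) ^ (7 * q) := by
  induction q with
  | zero => simpa using W_le_one 0
  | succ q ih =>
    have h1 : 7 * (q + 1) = 7 * q + 7 := by ring
    rw [h1, pow_add]
    exact W_add_le.trans (mul_le_mul ih W_seven (W_nonneg 7) (by positivity))

theorem W_upper (n : ℕ) : W n ≤ 4 * (8245 / 10000 : ℝ) ^ n := by
  obtain ⟨q, r, hr, rfl⟩ : ∃ q r, r < 7 ∧ n = 7 * q + r :=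
    ⟨n / 7, n % 7, Nat.mod_lt _ (by norm_num), (Nat.div_add_mod n 7).symm⟩
  have h1 : W (7 * q + r) ≤ (8245 / 10000 : ℝ) ^ (7 * q) * 1 :=
    W_add_le.trans (mul_le_mul (W_mul_seven q) (W_le_one r) (W_nonneg r) (by positivity))
  have h2 : (1 : ℝ) ≤ 4 * (8245 / 10000 : ℝ) ^ r := by
    have : (8245 / 10000 : ℝ) ^ 7 ≤ (8245 / 10000 : ℝ) ^ r :=
      pow_le_pow_of_le_one (by norm_num) (by norm_num) (by omega)
    have h3 : (1 : ℝ) ≤ 4 * (8245 / 10000 : ℝ) ^ 7 := by norm_num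
    linarith
  calc W (7 * q + r) ≤ (8245 / 10000 : ℝ) ^ (7 * q) * 1 := h1
    _ ≤ (8245 / 10000 : ℝ) ^ (7 * q) * (4 * (8245 / 10000 : ℝ) ^ r) :=
        mul_le_mul_of_nonneg_left h2 (by positivity)
    _ = 4 * (8245 / 10000 : ℝ) ^ (7 * q + r) := by rw [pow_add]; ring

theorem sum_three : ∑ α ∈ piAntidiag (univ : Finset (Fin 3)) 3,
    ((Nat.multinomial univ α : ℕ) : ℝ) ^ 2 = 93 := by
  have h : ∑ α ∈ piAntidiag (univ : Finset (Fin 3)) 3, (Nat.multinomial univ α) ^ 2 = 93 := by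
    decide +kernel
  exact_mod_cast h

/-- Estimates for `cₙ`. -/
theorem main.{u} :
    (∀ n : ℕ, 1 ≤ n → 1 ≤ c.{u} n ^ 2 * ∑ α ∈ piAntidiag (univ : Finset (Fin n)) n,
      ((Nat.multinomial univ α : ℕ) : ℝ) ^ 2) ∧
    (∀ n : ℕ, 1 ≤ n → (0.6896 : ℝ) ^ n ≤ n ! * c.{u} n ∧ n ! * c.{u} n ≤ 4 * (0.8245 : ℝ) ^ n) ∧
    (∃ θ : ℝ, 0.6896 ≤ θ ∧ θ ≤ 0.8245 ∧ (∀ n : ℕ, 1 ≤ n → θ ^ n ≤ n ! * c.{u} n) ∧
      Tendsto (fun n : ℕ => (n ! * c.{u} n) ^ (1 / (n : ℝ))) atTop (𝓝 θ)) ∧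
    c.{u} 2 = Real.sqrt 2 - 1 ∧ 0.1036 < c.{u} 3 ∧ c.{u} 3 < 0.1095 := by
  have hfac : ∀ n : ℕ, (0 : ℝ) < n ! := fun n => by exact_mod_cast n.factorial_pos
  have hc : ∀ n : ℕ, 1 ≤ n → (n ! : ℝ) * c.{u} n = W n := by
    intro n hn
    rw [c_eq.{u} hn, mul_div_cancel₀ _ (hfac n).ne']
  have h1 : ∀ n : ℕ, 1 ≤ n → 1 ≤ c.{u} n ^ 2 * ∑ α ∈ piAntidiag (univ : Finset (Fin n)) n,
      ((Nat.multinomial univ α : ℕ) : ℝ) ^ 2 := by
    intro n hn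
    rw [c_eq.{u} hn]
    exact W_sq_lower n
  refine ⟨h1, ?_, ?_, ?_, ?_, ?_⟩
  · intro n hn
    rw [hc n hn]
    have e1 : (0.6896 : ℝ) = 6896 / 10000 := by norm_num
    have e2 : (0.8245 : ℝ) = 8245 / 10000 := by norm_num
    rw [e1, e2]
    exact ⟨W_lower n, W_upper n⟩
  · obtain ⟨θ, hθ1, hθ2, hθ3⟩ := exists_rate
    have hθ0 : 0 ≤ θ := le_trans (by norm_num) hθ1
    refine ⟨θ, le_trans (by norm_num) hθ1, ?_, ?_, ?_⟩
    · have h8 := (hθ3 7).trans W_seven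
      have := (pow_le_pow_iff_left₀ hθ0 (by norm_num) (by norm_num : (7 : ℕ) ≠ 0)).mp h8
      exact this.trans (by norm_num)
    · intro n hn
      rw [hc n hn]
      exact hθ3 n
    · refine hθ2.congr' ?_
      filter_upwards [eventually_ge_atTop 1] with n hn
      rw [hc n hn]
  · rw [c_eq.{u} (by norm_num), W_two]
    norm_num [Nat.factorial]
  · have h3 := h1 3 (by norm_num)
    rw [sum_three] at h3
    have hpos : 0 ≤ c.{u} 3 := by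
      rw [c_eq.{u} (by norm_num)]
      exact div_nonneg (W_nonneg 3) (hfac 3).le
    by_contra hcon
    push Not at hcon
    nlinarith
  · rw [c_eq.{u} (by norm_num)]
    have := W_three
    rw [div_lt_iff₀ (hfac 3)]
    norm_num [Nat.factorial]
    linarith

end Pool.Agent.H51.CN
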