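import Mathlib

/-!
# Averages over roots of unity: a Jensen inequality for products of linear forms
-/

open scoped ComplexConjugate

namespace Pool.Agent.H51.CN

/-- the primitive `N`-th root of unity -/
noncomputable def zt (N : ℕ) : ℂ := Complex.exp (2 * Real.pi * Complex.I / N)

theorem zt_prim {N : ℕ} (hN : N ≠ 0) : IsPrimitiveRoot (zt N) N :=
  Complex.isPrimitiveRoot_exp N hN

theorem zt_norm (N : ℕ) : ‖zt N‖ = 1 := by
  unfold zt
  rw [Complex.norm_exp]
  have : (2 * Real.pi * Complex.I / N : ℂ).re = 0 := by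
    rw [Complex.div_natCast_re]
    simp
  rw [this, Real.exp_zero]

/-- `rt N z = ζ^z` -/
noncomputable def rt (N : ℕ) (z : Fin N) : ℂ := zt N ^ (z : ℕ)

theorem rt_norm {N : ℕ} (z : Fin N) : ‖rt N z‖ = 1 := by
  unfold rt
  rw [norm_pow, zt_norm, one_pow]

theorem rt_mul_conj {N : ℕ} (z : Fin N) : rt N z * conj (rt N z) = 1 := by
  rw [Complex.mul_conj, Complex.normSq_eq_norm_sq, rt_norm]
  simp

/-- orthogonality -/
theorem rt_orth {N : ℕ} {a b : ℕ} (ha : a < N) (hb : b < N) :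
    ∑ z : Fin N, rt N z ^ a * conj (rt N z ^ b) = if a = b then (N : ℂ) else 0 := by
  have hN : N ≠ 0 := by omega
  split_ifs with h
  · subst h
    have : ∀ z : Fin N, rt N z ^ a * conj (rt N z ^ a) = 1 := by
      intro z
      rw [map_pow, ← mul_pow, rt_mul_conj, one_pow]
    rw [Finset.sum_congr rfl fun z _ => this z]
    simp
  · -- WLOG by conjugation
    have key : ∀ a b : ℕ, a < b → b < N →
        ∑ z : Fin N, rt N z ^ b * conj (rt N z ^ a) = 0 := by
      intro a b hab hb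
      have h1 : ∀ z : Fin N, rt N z ^ b * conj (rt N z ^ a) = (zt N ^ (b - a)) ^ (z : ℕ) := by
        intro z
        have h2 : rt N z ^ b = rt N z ^ (b - a) * rt N z ^ a := by
          rw [← pow_add]; congr 1; omega
        rw [h2, map_pow, mul_assoc, ← mul_pow, rt_mul_conj, one_pow, mul_one]
        unfold rt
        rw [← pow_mul, ← pow_mul, mul_comm]
      simp only [h1]
      rw [Fin.sum_univ_eq_sum_range (fun i => (zt N ^ (b - a)) ^ i) N]
      have h3 : zt N ^ (b - a) ≠ 1 := by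
        intro h4
        have := (zt_prim hN).dvd_of_pow_eq_one _ h4
        have := Nat.le_of_dvd (by omega) this
        omega
      have h4 := geom_sum_eq h3 N
      rw [h4, ← pow_mul, mul_comm (b - a) N, pow_mul, (zt_prim hN).pow_eq_one, one_pow, sub_self,
        zero_div]
    rcases lt_or_gt_of_ne h with h' | h'
    · have h5 := key a b h' hb
      have h6 := congrArg conj h5
      rw [map_sum, map_zero] at h6
      rw [← h6]
      refine Finset.sum_congr rfl fun z _ => ?_
      rw [map_mul, Complex.conj_conj, mul_comm]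
    · exact key b a h' ha

/-- One variable step. -/
theorem one_var {N : ℕ} {ι : Type*} [Fintype ι] (hc : Fintype.card ι < N) (p : ι → Prop)
    [DecidablePred p] (A G : ι → ℂ) :
    (N : ℝ) * ∏ i, (if p i then ‖A i‖ ^ 2 else ‖G i‖ ^ 2)
      ≤ ∑ z : Fin N, ∏ i, ‖A i * rt N z + G i‖ ^ 2 := by
  classical
  set b : ι → ℂ := fun i => if p i then A i else conj (G i) with hb
  set h : ι → ℂ := fun i => if p i then G i else conj (A i) with hh
  have hnorm : ∀ (z : Fin N) (i : ι), ‖b i * rt N z + h i‖ = ‖A i * rt N z + G i‖ := by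
    intro z i
    by_cases hp : p i
    · simp only [hb, hh, if_pos hp]
    · simp only [hb, hh, if_neg hp]
      have h1 : conj (G i) * rt N z + conj (A i) = rt N z * conj (A i * rt N z + G i) := by
        rw [map_add, map_mul, mul_add, mul_left_comm, rt_mul_conj]
        ring
      rw [h1, norm_mul, rt_norm, one_mul, Complex.norm_conj]
  have hQ : ∑ z : Fin N, (∏ i, (b i * rt N z + h i)) * conj (rt N z ^ Fintype.card ι)
      = N * ∏ i, b i := by
    have h1 : ∀ z : Fin N, (∏ i, (b i * rt N z + h i)) * conj (rt N z ^ Fintype.card ι)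
        = ∑ t ∈ (Finset.univ : Finset ι).powerset, ((∏ i ∈ t, b i) *
          ∏ i ∈ Finset.univ \ t, h i) * (rt N z ^ t.card * conj (rt N z ^ Fintype.card ι)) := by
      intro z
      rw [Finset.prod_add, Finset.sum_mul]
      refine Finset.sum_congr rfl fun t _ => ?_
      rw [Finset.prod_mul_distrib, Finset.prod_const]
      ring
    simp only [h1]
    rw [Finset.sum_comm]
    simp only [← Finset.mul_sum]
    rw [Finset.sum_eq_single (Finset.univ : Finset ι)]
    · rw [Finset.card_univ, rt_orth hc hc, if_pos rfl]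
      simp
      ring
    · intro t ht hne
      have hlt : t.card < Fintype.card ι := by
        rcases lt_or_eq_of_le (Finset.card_le_univ t) with h2 | h2
        · exact h2
        · exact absurd (Finset.eq_univ_of_card t h2) hne
      rw [rt_orth (hlt.trans hc) hc, if_neg hlt.ne, mul_zero]
    · intro hne
      exact absurd (Finset.mem_powerset.mpr (Finset.subset_univ _)) hne
  -- Cauchy-Schwarz
  have hCS : ‖∑ z : Fin N, (∏ i, (b i * rt N z + h i)) * conj (rt N z ^ Fintype.card ι)‖ ^ 2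
      ≤ (∑ z : Fin N, ‖∏ i, (b i * rt N z + h i)‖ ^ 2) * N := by
    have h1 : ‖∑ z : Fin N, (∏ i, (b i * rt N z + h i)) * conj (rt N z ^ Fintype.card ι)‖
        ≤ ∑ z : Fin N, ‖∏ i, (b i * rt N z + h i)‖ * 1 := by
      refine (norm_sum_le _ _).trans (Finset.sum_le_sum fun z _ => ?_)
      rw [norm_mul, Complex.norm_conj, norm_pow, rt_norm, one_pow]
    have h2 := Finset.sum_mul_sq_le_sq_mul_sq (Finset.univ : Finset (Fin N))
      (fun z => ‖∏ i, (b i * rt N z + h i)‖) (fun _ => (1 : ℝ))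
    have h3 : ∑ z : Fin N, (1 : ℝ) ^ 2 = N := by simp
    rw [h3] at h2
    exact (pow_le_pow_left₀ (norm_nonneg _) h1 2).trans h2
  have hN : (0 : ℝ) < N := by
    have : 0 < N := by omega
    exact_mod_cast this
  rw [hQ, norm_mul, Complex.norm_natCast, norm_prod, mul_pow] at hCS
  have hprod : (∏ i, ‖b i‖) ^ 2 = ∏ i, (if p i then ‖A i‖ ^ 2 else ‖G i‖ ^ 2) := by
    rw [← Finset.prod_pow]
    refine Finset.prod_congr rfl fun i _ => ?_
    simp only [hb]
    split_ifs
    · rfl
    · rw [Complex.norm_conj]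
  rw [hprod] at hCS
  have hsum : ∑ z : Fin N, ‖∏ i, (b i * rt N z + h i)‖ ^ 2
      = ∑ z : Fin N, ∏ i, ‖A i * rt N z + G i‖ ^ 2 := by
    refine Finset.sum_congr rfl fun z _ => ?_
    rw [norm_prod, ← Finset.prod_pow]
    refine Finset.prod_congr rfl fun i _ => ?_
    rw [hnorm]
  rw [hsum] at hCS
  have h5 : (N : ℝ) * (N * ∏ i, (if p i then ‖A i‖ ^ 2 else ‖G i‖ ^ 2))
      ≤ N * ∑ z : Fin N, ∏ i, ‖A i * rt N z + G i‖ ^ 2 := by
    calc (N : ℝ) * (N * ∏ i, (if p i then ‖A i‖ ^ 2 else ‖G i‖ ^ 2))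
        = N ^ 2 * ∏ i, (if p i then ‖A i‖ ^ 2 else ‖G i‖ ^ 2) := by ring
      _ ≤ _ := hCS
      _ = _ := by ring
  exact le_of_mul_le_mul_left h5 hN

/-- The mean square over the torus of a product of linear forms is at least the product of the
squares of chosen coefficients. -/
theorem jensen {N : ℕ} (m : ℕ) : ∀ (ι : Type) [Fintype ι], Fintype.card ι < N →
    ∀ (a : ι → Fin m → ℂ) (c : ι → Fin m),
    (N : ℝ) ^ m * ∏ i, ‖a i (c i)‖ ^ 2
      ≤ ∑ x : Fin m → Fin N, ∏ i, ‖∑ j, a i j * rt N (x j)‖ ^ 2 := by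
  classical
  induction m with
  | zero =>
    intro ι _ hc a c
    have : IsEmpty ι := ⟨fun i => (c i).elim0⟩
    simp
  | succ m ih =>
    intro ι _ hc a c
    have hcard : Fintype.card {i // ¬ c i = 0} < N :=
      (Fintype.card_subtype_le _).trans_lt hc
    have hIH := ih {i // ¬ c i = 0} hcard (fun i j => a i.1 j.succ) (fun i => (c i.1).pred i.2)
    have h1 : ∑ x : Fin (m + 1) → Fin N, ∏ i, ‖∑ j, a i j * rt N (x j)‖ ^ 2
        = ∑ y : Fin m → Fin N, ∑ z : Fin N,
          ∏ i, ‖a i 0 * rt N z + ∑ j : Fin m, a i j.succ * rt N (y j)‖ ^ 2 := by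
      rw [Finset.sum_comm, ← Fintype.sum_prod_type', 
        ← (Fin.consEquiv (fun _ : Fin (m + 1) => Fin N)).sum_comp]
      refine Finset.sum_congr rfl fun w _ => ?_
      refine Finset.prod_congr rfl fun i _ => ?_
      rw [Fin.sum_univ_succ]
      simp [Fin.consEquiv]
    rw [h1]
    have h2 : ∀ y : Fin m → Fin N,
        (N : ℝ) * ((∏ i : {i // c i = 0}, ‖a i.1 (c i.1)‖ ^ 2) *
          ∏ i : {i // ¬ c i = 0}, ‖∑ j : Fin m, a i.1 j.succ * rt N (y j)‖ ^ 2)
        ≤ ∑ z : Fin N, ∏ i, ‖a i 0 * rt N z + ∑ j : Fin m, a i j.succ * rt N (y j)‖ ^ 2 := by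
      intro y
      have h3 := one_var hc (fun i => c i = 0) (fun i => a i 0)
        (fun i => ∑ j : Fin m, a i j.succ * rt N (y j))
      refine le_trans (le_of_eq ?_) h3
      congr 1
      rw [← Fintype.prod_subtype_mul_prod_subtype (fun i => c i = 0)]
      congr 1
      · refine Finset.prod_congr rfl fun i _ => ?_
        rw [if_pos i.2, i.2]
      · refine Finset.prod_congr rfl fun i _ => ?_
        rw [if_neg i.2]
    refine le_trans ?_ (Finset.sum_le_sum fun y _ => h2 y)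
    rw [← Finset.mul_sum, ← Finset.mul_sum]
    have h4 : ∏ i, ‖a i (c i)‖ ^ 2 = (∏ i : {i // c i = 0}, ‖a i.1 (c i.1)‖ ^ 2) *
        ∏ i : {i // ¬ c i = 0}, ‖a i.1 (c i.1)‖ ^ 2 :=
      (Fintype.prod_subtype_mul_prod_subtype (fun i => c i = 0) _).symm
    have h5 : ∏ i : {i // ¬ c i = 0}, ‖a i.1 (c i.1)‖ ^ 2
        = ∏ i : {i // ¬ c i = 0}, ‖a i.1 ((c i.1).pred i.2).succ‖ ^ 2 := by
      refine Finset.prod_congr rfl fun i _ => ?_
      rw [Fin.succ_pred]
    rw [h4, h5, pow_succ]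
    have h6 : (0 : ℝ) ≤ ∏ i : {i // c i = 0}, ‖a i.1 (c i.1)‖ ^ 2 :=
      Finset.prod_nonneg fun _ _ => by positivity
    calc (N : ℝ) ^ m * N * ((∏ i : {i // c i = 0}, ‖a i.1 (c i.1)‖ ^ 2) *
          ∏ i : {i // ¬ c i = 0}, ‖a i.1 ((c i.1).pred i.2).succ‖ ^ 2)
        = N * ((∏ i : {i // c i = 0}, ‖a i.1 (c i.1)‖ ^ 2) * ((N : ℝ) ^ m *
          ∏ i : {i // ¬ c i = 0}, ‖a i.1 ((c i.1).pred i.2).succ‖ ^ 2)) := by ring
      _ ≤ _ := by gcongr

end Pool.Agent.H51.CN
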