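import Mathlib

/-!
# Joint approximate eigenvalues of commuting normal operators

For commuting normal operators `A i` on a complex Hilbert space there is, for every index `i`,
a joint approximate eigenvalue `l` with `‖l i‖ = ‖A i‖`.
-/

open scoped InnerProductSpace IsMulCommutative

namespace Pool.Agent.H51.CN

variable {H : Type*} [NormedAddCommGroup H] [InnerProductSpace ℂ H]

/-- `l` is a joint approximate eigenvalue of the family `A`. -/
def JAE {ι : Type*} (A : ι → H →L[ℂ] H) (l : ι → ℂ) : Prop :=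
  ∀ ε : ℝ, 0 < ε → ∃ x : H, ‖x‖ = 1 ∧ ∀ j, ‖A j x - l j • x‖ ≤ ε

theorem JAE.norm_le {ι : Type*} {A : ι → H →L[ℂ] H} {l : ι → ℂ} (h : JAE A l) (j : ι) :
    ‖l j‖ ≤ ‖A j‖ := by
  refine le_of_forall_pos_le_add fun ε hε => ?_
  obtain ⟨x, hx, hj⟩ := h ε hε
  have h1 : ‖l j • x‖ ≤ ‖A j x‖ + ‖A j x - l j • x‖ := by
    have := norm_sub_le (A j x) (A j x - l j • x)
    simpa using this
  rw [norm_smul, hx, mul_one] at h1
  have h2 := (A j).le_opNorm x
  rw [hx, mul_one] at h2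
  linarith [hj j]

variable [CompleteSpace H]

/-- A sum of operators `B j* B j` which is bounded below is invertible. -/
theorem isUnit_of_bounded_below {ι : Type*} [Fintype ι] (B : ι → H →L[ℂ] H) {c : ℝ} (hc : 0 < c)
    (h : ∀ x : H, c * ‖x‖ ^ 2 ≤ ∑ j, ‖B j x‖ ^ 2) : IsUnit (∑ j, star (B j) * B j) := by
  have hs : IsStrictlyPositive (algebraMap ℝ (H →L[ℂ] H) c) :=
    isStrictlyPositive_algebraMap hc
  refine CStarAlgebra.isUnit_of_le (algebraMap ℝ (H →L[ℂ] H) c) ?_ hs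
  rw [ContinuousLinearMap.le_def]
  have key : ∀ x : H, ⟪(∑ j, star (B j) * B j - algebraMap ℝ (H →L[ℂ] H) c) x, x⟫_ℂ
      = ((∑ j, ‖B j x‖ ^ 2 - c * ‖x‖ ^ 2 : ℝ) : ℂ) := by
    intro x
    have h1 : ⟪(∑ j, star (B j) * B j) x, x⟫_ℂ = ((∑ j, ‖B j x‖ ^ 2 : ℝ) : ℂ) := by
      rw [ContinuousLinearMap.sum_apply, sum_inner]
      push_cast
      refine Finset.sum_congr rfl fun j _ => ?_
      change ⟪(star (B j)) (B j x), x⟫_ℂ = _
      rw [ContinuousLinearMap.star_eq_adjoint,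
        ContinuousLinearMap.adjoint_inner_left, inner_self_eq_norm_sq_to_K]
      norm_cast
    have h2 : ⟪(algebraMap ℝ (H →L[ℂ] H) c) x, x⟫_ℂ = ((c * ‖x‖ ^ 2 : ℝ) : ℂ) := by
      rw [Algebra.algebraMap_eq_smul_one]
      have : (c • (1 : H →L[ℂ] H)) x = (c : ℂ) • x := by
        simp
      rw [this, inner_smul_left, inner_self_eq_norm_sq_to_K]
      simp
    rw [ContinuousLinearMap.sub_apply, inner_sub_left, h1, h2]
    push_cast
    ring
  rw [ContinuousLinearMap.isPositive_iff_complex]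
  intro x
  rw [key x]
  refine ⟨by norm_cast, ?_⟩
  rw [RCLike.re_eq_complex_re, Complex.ofReal_re]
  linarith [h x]

theorem exists_jae {ι : Type*} [Fintype ι] [Nontrivial H] (A : ι → H →L[ℂ] H)
    (hc : ∀ i j, Commute (A i) (A j)) (hn : ∀ i, IsStarNormal (A i)) (i : ι) :
    ∃ l : ι → ℂ, JAE A l ∧ ‖l i‖ = ‖A i‖ := by
  classical
  have hcomm : ∀ a ∈ Set.range A, ∀ b ∈ Set.range A, a * b = b * a := by
    rintro _ ⟨i, rfl⟩ _ ⟨j, rfl⟩
    exact hc i j
  have hstar : ∀ a ∈ Set.range A, ∀ b ∈ Set.range A, a * star b = star b * a := by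
    rintro _ ⟨i, rfl⟩ _ ⟨j, rfl⟩
    exact (hn j).commute_star_right (hc i j)
  have hmc : IsMulCommutative (StarAlgebra.adjoin ℂ (Set.range A)) :=
    StarAlgebra.isMulCommutative_adjoin ℂ hcomm hstar
  let S : StarSubalgebra ℂ (H →L[ℂ] H) := (StarAlgebra.adjoin ℂ (Set.range A)).topologicalClosure
  have hS : IsClosed (S : Set (H →L[ℂ] H)) :=
    (StarAlgebra.adjoin ℂ (Set.range A)).isClosed_topologicalClosure
  let _ : CommRing S :=
    (StarAlgebra.adjoin ℂ (Set.range A)).commRingTopologicalClosure mul_comm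
  let _ : CommCStarAlgebra S := { }
  have hmem : ∀ j, A j ∈ S := fun j =>
    (StarAlgebra.adjoin ℂ (Set.range A)).le_topologicalClosure
      (StarAlgebra.subset_adjoin ℂ _ ⟨j, rfl⟩)
  let a : ι → S := fun j => ⟨A j, hmem j⟩
  obtain ⟨φ, hφ⟩ : ∃ φ : WeakDual.characterSpace ℂ S, ‖φ (a i)‖ = ‖A i‖ := by
    have hna : IsStarNormal (a i) := ⟨mul_comm _ _⟩
    obtain ⟨z, hz, hz1⟩ := spectrum.exists_nnnorm_eq_spectralRadius (a i)
    rw [hna.spectralRadius_eq_nnnorm] at hz1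
    obtain ⟨φ, hφ⟩ := WeakDual.CharacterSpace.mem_spectrum_iff_exists.mp hz
    refine ⟨φ, ?_⟩
    rw [hφ]
    have h2 : ‖z‖₊ = ‖a i‖₊ := by exact_mod_cast hz1
    exact congrArg NNReal.toReal h2
  refine ⟨fun j => φ (a j), ?_, hφ⟩
  by_contra hcon
  unfold JAE at hcon
  push Not at hcon
  obtain ⟨ε, hε, hcon⟩ := hcon
  have hb : ∀ x : H, ε ^ 2 * ‖x‖ ^ 2 ≤ ∑ j, ‖(A j - φ (a j) • (1 : H →L[ℂ] H)) x‖ ^ 2 := by
    intro x
    rcases eq_or_ne x 0 with rfl | hx
    · simp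
    · have hx' : 0 < ‖x‖ := norm_pos_iff.mpr hx
      obtain ⟨j, hj⟩ := hcon (((‖x‖ : ℂ)⁻¹) • x) (by
        rw [norm_smul]; simp [hx'.ne'])
      have h1 : ‖(A j - φ (a j) • (1 : H →L[ℂ] H)) x‖ ≥ ε * ‖x‖ := by
        have h2 : A j (((‖x‖ : ℂ)⁻¹) • x) - φ (a j) • (((‖x‖ : ℂ)⁻¹) • x)
            = ((‖x‖ : ℂ)⁻¹) • ((A j - φ (a j) • (1 : H →L[ℂ] H)) x) := by
          simp only [map_smul, ContinuousLinearMap.sub_apply, ContinuousLinearMap.smul_apply,
            ContinuousLinearMap.one_apply, smul_sub, smul_smul, mul_comm]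
        rw [h2, norm_smul, norm_inv, Complex.norm_real, norm_norm] at hj
        rw [lt_inv_mul_iff₀ hx'] at hj
        nlinarith
      have h3 : ε ^ 2 * ‖x‖ ^ 2 ≤ ‖(A j - φ (a j) • (1 : H →L[ℂ] H)) x‖ ^ 2 := by
        rw [← mul_pow]
        exact pow_le_pow_left₀ (by positivity) h1 2
      exact h3.trans (Finset.single_le_sum (f := fun j => ‖(A j - φ (a j) • (1 : H →L[ℂ] H)) x‖ ^ 2)
        (fun _ _ => by positivity) (Finset.mem_univ j))
  have hu := isUnit_of_bounded_below (fun j => A j - φ (a j) • (1 : H →L[ℂ] H))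
    (by positivity) hb
  let b : S := ∑ j, star (a j - algebraMap ℂ S (φ (a j))) * (a j - algebraMap ℂ S (φ (a j)))
  have hb' : ((b : S) : H →L[ℂ] H) = ∑ j, star (A j - φ (a j) • (1 : H →L[ℂ] H)) *
      (A j - φ (a j) • (1 : H →L[ℂ] H)) := by
    simp only [b]
    rw [AddSubmonoidClass.coe_finset_sum]
    refine Finset.sum_congr rfl fun j _ => ?_
    have h1 : ((a j - algebraMap ℂ S (φ (a j)) : S) : H →L[ℂ] H)
        = A j - φ (a j) • (1 : H →L[ℂ] H) := by
      rw [← Algebra.algebraMap_eq_smul_one]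
      rfl
    change (star (a j - algebraMap ℂ S (φ (a j)) : S) : H →L[ℂ] H) *
      ((a j - algebraMap ℂ S (φ (a j)) : S) : H →L[ℂ] H) = _
    rw [h1]
  have hub : IsUnit b := by
    rw [← StarSubalgebra.coe_isUnit, hb']
    exact hu
  have h0 : φ b = 0 := by
    simp only [b, map_sum, map_mul, map_sub]
    refine Finset.sum_eq_zero fun j _ => ?_
    have : φ (a j) - φ (algebraMap ℂ S (φ (a j))) = 0 := by
      rw [AlgHomClass.commutes]
      simp
    rw [this, mul_zero]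
  have := hub.map φ
  rw [h0] at this
  exact not_isUnit_zero this

end Pool.Agent.H51.CN
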