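import Pool.Agent.H51.CN.Defs

/-!
# Diagonal operators on a finite dimensional space

For a finite index type `J`, `EuclideanSpace ℂ (Fin n → J)` is the `n`-th tensor power of
`EuclideanSpace ℂ J`, and the average of the tensor products of diagonal operators is the diagonal
operator whose entries are permanents divided by `n!`.
-/

open scoped InnerProductSpace Nat Matrix.Norms.L2Operator
open WithLp

namespace Pool.Agent.H51.CN

variable {n : ℕ} {J : Type*} [Fintype J] [DecidableEq J]

/-- The elementary tensors in `EuclideanSpace ℂ (Fin n → J)`. -/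
noncomputable def tens (n : ℕ) (J : Type*) [Fintype J] [DecidableEq J] :
    MultilinearMap ℂ (fun _ : Fin n => EuclideanSpace ℂ J) (EuclideanSpace ℂ (Fin n → J)) :=
  (WithLp.linearEquiv 2 ℂ ((Fin n → J) → ℂ)).symm.toLinearMap.compMultilinearMap
    (MultilinearMap.pi fun k : Fin n → J =>
      (MultilinearMap.mkPiAlgebra ℂ (Fin n) ℂ).compLinearMap
        (fun i => (EuclideanSpace.proj (𝕜 := ℂ) (k i)).toLinearMap))

theorem tens_apply (x : Fin n → EuclideanSpace ℂ J) (k : Fin n → J) :
    tens n J x k = ∏ i, x i (k i) := by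
  simp [tens]

theorem tens_single (k : Fin n → J) (k' : Fin n → J) :
    tens n J (fun i => EuclideanSpace.single (k i) (1 : ℂ)) k' = if k' = k then 1 else 0 := by
  rw [tens_apply]
  split_ifs with h
  · subst h
    simp
  · obtain ⟨i, hi⟩ := Function.ne_iff.mp h
    refine Finset.prod_eq_zero (Finset.mem_univ i) ?_
    simp [hi]

theorem tens_isTensorPower : IsTensorPower (tens n J) := by
  constructor
  · intro x y
    rw [PiLp.inner_apply]
    simp only [tens_apply, PiLp.inner_apply]
    rw [Finset.prod_univ_sum, Fintype.piFinset_univ]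
    refine Finset.sum_congr rfl fun k _ => ?_
    simp only [RCLike.inner_apply, map_prod, Finset.prod_mul_distrib]
  · rw [eq_top_iff]
    refine le_trans ?_ (Submodule.le_topologicalClosure _)
    intro v _
    have h : v = ∑ k : Fin n → J, v k • tens n J (fun i => EuclideanSpace.single (k i) (1 : ℂ)) := by
      ext k'
      rw [WithLp.ofLp_sum, Finset.sum_apply]
      simp only [PiLp.smul_apply, tens_single, smul_eq_mul]
      simp
    rw [h]
    exact Submodule.sum_mem _ fun k _ => Submodule.smul_mem _ _ (Submodule.subset_span ⟨_, rfl⟩)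

/-- The diagonal operator with entries `d`. -/
noncomputable def dg {I : Type*} [Fintype I] [DecidableEq I] (d : I → ℂ) :
    EuclideanSpace ℂ I →L[ℂ] EuclideanSpace ℂ I :=
  Matrix.toEuclideanCLM (n := I) (𝕜 := ℂ) (Matrix.diagonal d)

theorem dg_apply {I : Type*} [Fintype I] [DecidableEq I] (d : I → ℂ) (x : EuclideanSpace ℂ I)
    (i : I) : dg d x i = d i * x i := by
  unfold dg
  rw [Matrix.ofLp_toEuclideanCLM, Matrix.mulVec_diagonal]

theorem norm_dg {I : Type*} [Fintype I] [DecidableEq I] (d : I → ℂ) : ‖dg d‖ = ‖d‖ := by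
  unfold dg
  rw [Matrix.l2_opNorm_toEuclideanCLM, Matrix.l2_opNorm_diagonal]

theorem dg_commute {I : Type*} [Fintype I] [DecidableEq I] (d e : I → ℂ) :
    Commute (dg d) (dg e) := by
  unfold dg
  refine Commute.map ?_ (Matrix.toEuclideanCLM (n := I) (𝕜 := ℂ))
  unfold Commute SemiconjBy
  rw [Matrix.diagonal_mul_diagonal, Matrix.diagonal_mul_diagonal]
  congr 1
  ext i
  ring

theorem dg_normal {I : Type*} [Fintype I] [DecidableEq I] (d : I → ℂ) :
    IsStarNormal (dg d) := by
  refine ⟨?_⟩
  have h : star (dg d) = dg (star d) := by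
    unfold dg
    rw [← map_star, Matrix.star_eq_conjTranspose, Matrix.diagonal_conjTranspose]
  rw [h]
  exact dg_commute _ _

/-- The average of the tensor products of diagonal operators. -/
theorem isAvg_dg (a : Fin n → J → ℂ) :
    IsAvg (tens n J) (fun i => dg (a i))
      (dg fun k : Fin n → J => ((n ! : ℂ)⁻¹) * ∑ σ : Equiv.Perm (Fin n), ∏ i, a (σ i) (k i)) := by
  intro x
  ext k
  rw [dg_apply, tens_apply, PiLp.smul_apply, WithLp.ofLp_sum, Finset.sum_apply, smul_eq_mul,
    mul_assoc, Finset.sum_mul]
  congr 1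
  refine Finset.sum_congr rfl fun σ _ => ?_
  rw [tens_apply, ← Finset.prod_mul_distrib]
  simp only [dg_apply]

end Pool.Agent.H51.CN
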