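import Pool.Agent.H51.CN.Lower
import Pool.Agent.H51.CN.Model

/-!
# Reduction of `cₙ` to a finite dimensional minimax problem for permanents
-/

open scoped InnerProductSpace Nat

namespace Pool.Agent.H51.CN

/-- The complex `n × n` matrices with entries of absolute value at most one and with diagonal
entries of absolute value one. -/
def Adm (n : ℕ) : Set (Matrix (Fin n) (Fin n) ℂ) :=
  {a | (∀ i j, ‖a i j‖ ≤ 1) ∧ ∀ i, ‖a i i‖ = 1}

/-- The largest absolute value of the permanent of an `n × n` matrix all of whose columns are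
columns of `a` (repetitions allowed). -/
noncomputable def pmax {n : ℕ} (a : Matrix (Fin n) (Fin n) ℂ) : ℝ :=
  ⨆ k : Fin n → Fin n, ‖(a.submatrix id k).permanent‖

/-- The minimum of `pmax` over admissible matrices. -/
noncomputable def W (n : ℕ) : ℝ := sInf (pmax '' Adm n)

theorem le_pmax {n : ℕ} (a : Matrix (Fin n) (Fin n) ℂ) (k : Fin n → Fin n) :
    ‖(a.submatrix id k).permanent‖ ≤ pmax a :=
  le_ciSup (f := fun k : Fin n → Fin n => ‖(a.submatrix id k).permanent‖)
    (Set.finite_range _).bddAbove k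

theorem pmax_nonneg {n : ℕ} (a : Matrix (Fin n) (Fin n) ℂ) : 0 ≤ pmax a :=
  Real.iSup_nonneg fun _ => norm_nonneg _

theorem pmax_le {n : ℕ} {a : Matrix (Fin n) (Fin n) ℂ} {r : ℝ} (hr : 0 ≤ r)
    (h : ∀ k : Fin n → Fin n, ‖(a.submatrix id k).permanent‖ ≤ r) : pmax a ≤ r :=
  Real.iSup_le h hr

theorem W_le {n : ℕ} {a : Matrix (Fin n) (Fin n) ℂ} (ha : a ∈ Adm n) : W n ≤ pmax a :=
  csInf_le ⟨0, by rintro _ ⟨b, _, rfl⟩; exact pmax_nonneg b⟩ ⟨a, ha, rfl⟩

theorem one_mem_Adm (n : ℕ) : (1 : Matrix (Fin n) (Fin n) ℂ) ∈ Adm n := by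
  constructor
  · intro i j
    rcases eq_or_ne i j with rfl | h
    · simp
    · simp [Matrix.one_apply_ne h]
  · intro i
    simp

theorem le_W {n : ℕ} {r : ℝ} (h : ∀ a ∈ Adm n, r ≤ pmax a) : r ≤ W n := by
  refine le_csInf ⟨_, ⟨1, one_mem_Adm n, rfl⟩⟩ ?_
  rintro _ ⟨a, ha, rfl⟩
  exact h a ha

theorem W_nonneg (n : ℕ) : 0 ≤ W n := le_W fun a _ => pmax_nonneg a

theorem normSet_bddBelow.{u} (n : ℕ) : BddBelow (normSet.{u} n) := by
  refine ⟨0, ?_⟩
  rintro r ⟨H, T, _, _, _, _, _, _, τ, A, R, -, -, -, -, -, -, hr⟩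
  rw [hr]
  exact norm_nonneg (R.comp (symSub τ).subtypeL)

/-- Each admissible matrix gives commuting normal operators of norm one. -/
theorem exists_mem_normSet.{u} {n : ℕ} (hn : 0 < n) {a : Matrix (Fin n) (Fin n) ℂ}
    (ha : a ∈ Adm n) : ∃ r ∈ normSet.{u} n, r ≤ pmax a / n ! := by
  classical
  let J : Type u := ULift.{u} (Fin n)
  let b : Fin n → J → ℂ := fun i j => a i j.down
  let R := dg fun k : Fin n → J =>
    ((n ! : ℂ)⁻¹) * ∑ σ : Equiv.Perm (Fin n), ∏ i, b (σ i) (k i)
  have : Nonempty J := ⟨⟨⟨0, hn⟩⟩⟩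
  refine ⟨‖R.comp (symSub (tens n J)).subtypeL‖, ⟨EuclideanSpace ℂ J, EuclideanSpace ℂ (Fin n → J),
    inferInstance, inferInstance, inferInstance, inferInstance, inferInstance, inferInstance,
    tens n J, fun i => dg (b i), R, ?_, tens_isTensorPower, fun i j => dg_commute _ _,
    fun i => dg_normal _, ?_, isAvg_dg b, rfl⟩, ?_⟩
  · infer_instance
  · intro i
    rw [norm_dg]
    apply le_antisymm
    · exact (pi_norm_le_iff_of_nonneg zero_le_one).mpr fun j => ha.1 i j.down
    · have h := norm_le_pi_norm (b i) ⟨i⟩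
      have h2 : ‖b i ⟨i⟩‖ = 1 := ha.2 i
      rwa [h2] at h
  · refine (ContinuousLinearMap.opNorm_comp_le _ _).trans ?_
    have h1 : ‖(symSub (tens n J)).subtypeL‖ ≤ 1 := Submodule.norm_subtypeL_le _
    have h2 : ‖R‖ ≤ pmax a / n ! := by
      simp only [R]
      rw [norm_dg]
      refine (pi_norm_le_iff_of_nonneg (by have := pmax_nonneg a; positivity)).mpr fun k => ?_
      rw [norm_mul, norm_inv, Complex.norm_natCast, div_eq_inv_mul]
      refine mul_le_mul_of_nonneg_left ?_ (by positivity)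
      exact le_pmax a fun i => (k i).down
    calc ‖R‖ * ‖(symSub (tens n J)).subtypeL‖ ≤ ‖R‖ * 1 :=
          mul_le_mul_of_nonneg_left h1 (norm_nonneg _)
      _ ≤ pmax a / n ! := by rw [mul_one]; exact h2

/-- The reduction: `n! cₙ` is the minimum over all admissible matrices `a` of the largest
absolute value of the permanent of a matrix made from the columns of `a`. -/
theorem c_eq.{u} {n : ℕ} (hn : 0 < n) : c.{u} n = W n / n ! := by
  have hfac : (0 : ℝ) < n ! := by exact_mod_cast n.factorial_pos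
  apply le_antisymm
  · rw [le_div_iff₀ hfac]
    refine le_W fun a ha => ?_
    obtain ⟨r, hr, hr2⟩ := exists_mem_normSet.{u} hn ha
    rw [← le_div_iff₀ hfac]
    exact (csInf_le (normSet_bddBelow.{u} n) hr).trans hr2
  · refine le_csInf ?_ ?_
    · obtain ⟨r, hr, -⟩ := exists_mem_normSet.{u} hn (one_mem_Adm n)
      exact ⟨r, hr⟩
    · rintro r ⟨H, T, _, _, _, _, _, _, τ, A, R, hH, hτ, hc, hno, h1, hR, rfl⟩
      choose l hl hl2 using fun i => exists_jae A hc hno i
      let a : Matrix (Fin n) (Fin n) ℂ := fun i j => l j i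
      have ha : a ∈ Adm n := by
        constructor
        · intro i j
          have := (hl j).norm_le i
          rwa [h1 i] at this
        · intro i
          have := hl2 i
          rwa [h1 i] at this
      have hp : pmax a ≤ n ! * ‖R.comp (symSub τ).subtypeL‖ := by
        refine pmax_le (by positivity) fun k => ?_
        have h3 := perm_le_norm hτ hno hR (fun j => l (k j)) (fun j => hl (k j))
        rw [norm_mul, norm_inv, Complex.norm_natCast, inv_mul_le_iff₀ hfac] at h3
        exact h3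
      rw [div_le_iff₀ hfac, mul_comm]
      exact (W_le ha).trans hp

end Pool.Agent.H51.CN
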