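import Pool.Agent.H51.CN.Jensen
import Pool.Agent.H51.CN.Reduction

/-!
# The lower bound for the permanents
-/

open scoped ComplexConjugate Nat
open Finset

namespace Pool.Agent.H51.CN

/-- number of occurrences of the letter `j` in the word `k` -/
def cnt {n d : ℕ} (k : Fin n → Fin d) (j : Fin d) : ℕ := #{i | k i = j}

theorem cnt_le {n d : ℕ} (k : Fin n → Fin d) (j : Fin d) : cnt k j ≤ n := by
  unfold cnt
  exact (card_filter_le _ _).trans (by simp)

theorem prod_word {n d : ℕ} (k : Fin n → Fin d) (f : Fin d → ℂ) :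
    ∏ i, f (k i) = ∏ j, f j ^ cnt k j := by
  have h1 : ∀ i, f (k i) = ∏ j, if k i = j then f j else 1 := by
    intro i
    rw [Finset.prod_ite_eq]
    simp
  rw [Finset.prod_congr rfl fun i _ => h1 i, Finset.prod_comm]
  refine Finset.prod_congr rfl fun j _ => ?_
  rw [Finset.prod_ite, Finset.prod_const, Finset.prod_const_one, mul_one]
  rfl

/-- orthogonality of monomials -/
theorem mon_orth {N d : ℕ} {α β : Fin d → ℕ} (hα : ∀ j, α j < N) (hβ : ∀ j, β j < N) :
    ∑ x : Fin d → Fin N, (∏ j, rt N (x j) ^ α j) * conj (∏ j, rt N (x j) ^ β j)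
      = if α = β then (N : ℂ) ^ d else 0 := by
  have h1 : ∀ x : Fin d → Fin N, (∏ j, rt N (x j) ^ α j) * conj (∏ j, rt N (x j) ^ β j)
      = ∏ j, (rt N (x j) ^ α j * conj (rt N (x j) ^ β j)) := by
    intro x
    rw [map_prod, Finset.prod_mul_distrib]
  rw [Finset.sum_congr rfl fun x _ => h1 x]
  have h2 := Finset.prod_univ_sum (fun _ : Fin d => (Finset.univ : Finset (Fin N)))
    (fun j z => rt N z ^ α j * conj (rt N z ^ β j))
  rw [Fintype.piFinset_univ] at h2
  rw [← h2, Finset.prod_congr rfl fun j _ => rt_orth (hα j) (hβ j)]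
  split_ifs with h
  · subst h
    simp
  · obtain ⟨j, hj⟩ := Function.ne_iff.mp h
    exact Finset.prod_eq_zero (Finset.mem_univ j) (if_neg hj)

theorem sum_sq_expand {N d : ℕ} {K : Type*} [Fintype K] (α : K → Fin d → ℕ)
    (hα : ∀ k j, α k j < N) (b : K → ℂ) :
    ((∑ x : Fin d → Fin N, ‖∑ k, b k * ∏ j, rt N (x j) ^ α k j‖ ^ 2 : ℝ) : ℂ)
      = ∑ k, ∑ k', b k * conj (b k') * (if α k = α k' then (N : ℂ) ^ d else 0) := by
  push_cast
  have h1 : ∀ x : Fin d → Fin N, ((‖∑ k, b k * ∏ j, rt N (x j) ^ α k j‖ : ℂ) ^ 2)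
      = ∑ k, ∑ k', b k * conj (b k') *
        ((∏ j, rt N (x j) ^ α k j) * conj (∏ j, rt N (x j) ^ α k' j)) := by
    intro x
    rw [← Complex.mul_conj', map_sum, Finset.sum_mul_sum]
    refine Finset.sum_congr rfl fun k _ => Finset.sum_congr rfl fun k' _ => ?_
    rw [map_mul]
    ring
  rw [Finset.sum_congr rfl fun x _ => h1 x, Finset.sum_comm]
  refine Finset.sum_congr rfl fun k _ => ?_
  rw [Finset.sum_comm]
  refine Finset.sum_congr rfl fun k' _ => ?_
  rw [← Finset.mul_sum, mon_orth (hα k) (hα k')]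

/-- comparison with the power of the sum of the variables -/
theorem sum_sq_le {N n d : ℕ} (hN : n < N) (b : (Fin n → Fin d) → ℂ) {B : ℝ} (hB : 0 ≤ B)
    (hb : ∀ k, ‖b k‖ ≤ B) :
    ∑ x : Fin d → Fin N, ‖∑ k, b k * ∏ j, rt N (x j) ^ cnt k j‖ ^ 2
      ≤ B ^ 2 * ∑ x : Fin d → Fin N, ‖∑ k : Fin n → Fin d, ∏ j, rt N (x j) ^ cnt k j‖ ^ 2 := by
  have h1 := sum_sq_expand (N := N) (K := Fin n → Fin d) cnt
    (fun k j => (cnt_le k j).trans_lt hN) b
  have h2 := sum_sq_expand (N := N) (K := Fin n → Fin d) cnt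
    (fun k j => (cnt_le k j).trans_lt hN) (fun _ => (1 : ℂ))
  simp only [one_mul, map_one] at h2
  have h3 : ∑ x : Fin d → Fin N, ‖∑ k, b k * ∏ j, rt N (x j) ^ cnt k j‖ ^ 2
      = ‖((∑ x : Fin d → Fin N, ‖∑ k, b k * ∏ j, rt N (x j) ^ cnt k j‖ ^ 2 : ℝ) : ℂ)‖ := by
    rw [Complex.norm_real, Real.norm_of_nonneg (Finset.sum_nonneg fun _ _ => by positivity)]
  have h4 : ∑ x : Fin d → Fin N, ‖∑ k : Fin n → Fin d, ∏ j, rt N (x j) ^ cnt k j‖ ^ 2
      = ∑ k : Fin n → Fin d, ∑ k' : Fin n → Fin d, (if cnt k = cnt k' then (N : ℝ) ^ d else 0) := by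
    have : ((∑ x : Fin d → Fin N, ‖∑ k : Fin n → Fin d, ∏ j, rt N (x j) ^ cnt k j‖ ^ 2 : ℝ) : ℂ)
      = ((∑ k : Fin n → Fin d, ∑ k' : Fin n → Fin d,
        (if cnt k = cnt k' then (N : ℝ) ^ d else 0) : ℝ) : ℂ) := by
      rw [h2]
      push_cast
      simp only [apply_ite Complex.ofReal]
      push_cast
      rfl
    exact_mod_cast this
  rw [h3, h1, h4, Finset.mul_sum]
  refine (norm_sum_le _ _).trans (Finset.sum_le_sum fun k _ => ?_)
  rw [Finset.mul_sum]
  refine (norm_sum_le _ _).trans (Finset.sum_le_sum fun k' _ => ?_)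
  rw [norm_mul, norm_mul, Complex.norm_conj]
  have h5 : ‖(if cnt k = cnt k' then (N : ℂ) ^ d else 0)‖
      = (if cnt k = cnt k' then (N : ℝ) ^ d else 0) := by
    split_ifs
    · rw [norm_pow, Complex.norm_natCast]
    · rw [norm_zero]
  rw [h5, pow_two B]
  have h6 : (0 : ℝ) ≤ (if cnt k = cnt k' then (N : ℝ) ^ d else 0) := by
    split_ifs <;> positivity
  exact mul_le_mul_of_nonneg_right (mul_le_mul (hb k) (hb k') (norm_nonneg _) hB) h6

theorem prod_linear {n d N : ℕ} (a : Fin n → Fin d → ℂ) (x : Fin d → Fin N) :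
    ∏ i, ∑ j, a i j * rt N (x j)
      = ∑ k : Fin n → Fin d, (∏ i, a i (k i)) * ∏ j, rt N (x j) ^ cnt k j := by
  rw [Finset.prod_univ_sum, Fintype.piFinset_univ]
  refine Finset.sum_congr rfl fun k _ => ?_
  rw [Finset.prod_mul_distrib, prod_word k (fun j => rt N (x j))]

theorem cnt_comp {n d : ℕ} (k : Fin n → Fin d) (σ : Equiv.Perm (Fin n)) (j : Fin d) :
    cnt (fun i => k (σ i)) j = cnt k j := by
  unfold cnt
  refine Finset.card_bij (fun i _ => σ i) ?_ ?_ ?_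
  · intro i hi
    simpa using hi
  · intro i _ i' _ h
    exact σ.injective h
  · intro i hi
    refine ⟨σ.symm i, ?_, by simp⟩
    simpa using hi

/-- symmetrisation of the coefficients -/
theorem prod_linear_perm {n N : ℕ} (a : Matrix (Fin n) (Fin n) ℂ) (x : Fin n → Fin N) :
    ∏ i, ∑ j, a i j * rt N (x j)
      = ∑ k : Fin n → Fin n, ((n ! : ℂ)⁻¹ * (a.submatrix id k).permanent) *
        ∏ j, rt N (x j) ^ cnt k j := by
  have h1 : ∀ σ : Equiv.Perm (Fin n), ∏ i, ∑ j, a i j * rt N (x j)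
      = ∑ k : Fin n → Fin n, (∏ i, a (σ i) (k i)) * ∏ j, rt N (x j) ^ cnt k j := by
    intro σ
    refine (prod_linear (fun i j => a i j) x).trans ?_
    refine Fintype.sum_equiv (Equiv.arrowCongr σ.symm (Equiv.refl _)) _ _ fun k => ?_
    have e : ∀ i, (Equiv.arrowCongr σ.symm (Equiv.refl (Fin n))) k i = k (σ i) := by
      intro i
      simp [Equiv.arrowCongr]
    have e2 : (Equiv.arrowCongr σ.symm (Equiv.refl (Fin n))) k = fun i => k (σ i) := funext e
    rw [e2]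
    congr 1
    · exact (Equiv.prod_comp σ (fun i => a i (k i))).symm
    · refine Finset.prod_congr rfl fun j _ => ?_
      rw [cnt_comp]
  have hfac : (n ! : ℂ) ≠ 0 := by exact_mod_cast n.factorial_ne_zero
  have h2 : (n ! : ℂ) * ∏ i, ∑ j, a i j * rt N (x j)
      = ∑ k : Fin n → Fin n, (a.submatrix id k).permanent * ∏ j, rt N (x j) ^ cnt k j := by
    have h3 : (n ! : ℂ) * ∏ i, ∑ j, a i j * rt N (x j)
        = ∑ σ : Equiv.Perm (Fin n), ∏ i, ∑ j, a i j * rt N (x j) := by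
      rw [Finset.sum_const, Finset.card_univ, Fintype.card_perm, Fintype.card_fin, nsmul_eq_mul]
    rw [h3, Finset.sum_congr rfl fun σ _ => h1 σ, Finset.sum_comm]
    refine Finset.sum_congr rfl fun k _ => ?_
    rw [← Finset.sum_mul]
    rfl
  calc ∏ i, ∑ j, a i j * rt N (x j)
      = (n ! : ℂ)⁻¹ * ((n ! : ℂ) * ∏ i, ∑ j, a i j * rt N (x j)) := by
        rw [← mul_assoc, inv_mul_cancel₀ hfac, one_mul]
    _ = _ := by
        rw [h2, Finset.mul_sum]
        refine Finset.sum_congr rfl fun k _ => ?_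
        ring

/-- the mean square of the `n`-th power of the sum of the variables -/
theorem sum_sq_power {N n d : ℕ} (hN : n < N) :
    ∑ x : Fin d → Fin N, ‖∑ k : Fin n → Fin d, ∏ j, rt N (x j) ^ cnt k j‖ ^ 2
      = (N : ℝ) ^ d * ∑ α ∈ piAntidiag (univ : Finset (Fin d)) n,
        ((Nat.multinomial univ α : ℕ) : ℝ) ^ 2 := by
  set S := piAntidiag (univ : Finset (Fin d)) n with hS
  have h0 : ∀ α ∈ S, ∀ j, α j < N := by
    intro α hα j
    rw [hS, mem_piAntidiag] at hα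
    have := Finset.single_le_sum (f := α) (fun _ _ => Nat.zero_le _) (Finset.mem_univ j)
    exact (this.trans hα.1.le).trans_lt hN
  have h1 : ∀ x : Fin d → Fin N, ∑ k : Fin n → Fin d, ∏ j, rt N (x j) ^ cnt k j
      = ∑ α : S, ((Nat.multinomial univ α.1 : ℕ) : ℂ) * ∏ j, rt N (x j) ^ α.1 j := by
    intro x
    have h2 := prod_linear (n := n) (fun _ _ => (1 : ℂ)) x
    simp only [one_mul, Finset.prod_const_one] at h2
    rw [← h2, Finset.prod_const, Finset.card_univ, Fintype.card_fin,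
      Finset.sum_pow_eq_sum_piAntidiag, ← Finset.sum_coe_sort]
  rw [Finset.sum_congr rfl fun x _ => by rw [h1 x]]
  have h3 := sum_sq_expand (N := N) (K := S) (fun α => α.1) (fun α j => h0 α.1 α.2 j)
    (fun α => ((Nat.multinomial univ α.1 : ℕ) : ℂ))
  have h4 : ∑ k : S, ∑ k' : S, ((Nat.multinomial univ k.1 : ℕ) : ℂ) *
      conj ((Nat.multinomial univ k'.1 : ℕ) : ℂ) * (if k.1 = k'.1 then (N : ℂ) ^ d else 0)
      = (((N : ℝ) ^ d * ∑ α ∈ S, ((Nat.multinomial univ α : ℕ) : ℝ) ^ 2 : ℝ) : ℂ) := by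
    push_cast
    rw [← Finset.sum_coe_sort S, Finset.mul_sum]
    refine Finset.sum_congr rfl fun k _ => ?_
    rw [Finset.sum_eq_single k]
    · rw [if_pos rfl, Complex.conj_natCast]
      ring
    · intro k' _ hne
      rw [if_neg (fun h => hne (Subtype.ext h.symm)), mul_zero]
    · intro h
      exact absurd (Finset.mem_univ k) h
  rw [h4] at h3
  exact_mod_cast h3

/-- The lower bound: `1 ≤ (pmax a / n!)² ∑_α multinomial(α)²`. -/
theorem pmax_lower {n : ℕ} {a : Matrix (Fin n) (Fin n) ℂ} (ha : ∀ i, ‖a i i‖ = 1) :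
    1 ≤ (pmax a / n !) ^ 2 * ∑ α ∈ piAntidiag (univ : Finset (Fin n)) n,
      ((Nat.multinomial univ α : ℕ) : ℝ) ^ 2 := by
  have hfac : (0 : ℝ) < n ! := by exact_mod_cast n.factorial_pos
  have hN : n < n + 1 := Nat.lt_succ_self n
  have h1 := jensen (N := n + 1) n (Fin n) (by simp) (fun i j => a i j) (fun i => i)
  have h2 : ∑ x : Fin n → Fin (n + 1), ∏ i, ‖∑ j, a i j * rt (n + 1) (x j)‖ ^ 2
      = ∑ x : Fin n → Fin (n + 1), ‖∑ k : Fin n → Fin n,
        ((n ! : ℂ)⁻¹ * (a.submatrix id k).permanent) * ∏ j, rt (n + 1) (x j) ^ cnt k j‖ ^ 2 := by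
    refine Finset.sum_congr rfl fun x _ => ?_
    rw [← prod_linear_perm, norm_prod, Finset.prod_pow]
  have h3 := sum_sq_le (d := n) hN (fun k => (n ! : ℂ)⁻¹ * (a.submatrix id k).permanent)
    (B := pmax a / n !) (div_nonneg (pmax_nonneg a) hfac.le) (fun k => by
      rw [norm_mul, norm_inv, Complex.norm_natCast, div_eq_inv_mul]
      exact mul_le_mul_of_nonneg_left (le_pmax a k) (by positivity))
  rw [sum_sq_power hN] at h3
  rw [h2] at h1
  have h4 := h1.trans h3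
  simp only [ha, one_pow, Finset.prod_const_one, mul_one] at h4
  have h5 : (0 : ℝ) < ((n + 1 : ℕ) : ℝ) ^ n := by positivity
  have h6 : ((n + 1 : ℕ) : ℝ) ^ n * 1 ≤ ((n + 1 : ℕ) : ℝ) ^ n * ((pmax a / n !) ^ 2 *
      ∑ α ∈ piAntidiag (univ : Finset (Fin n)) n, ((Nat.multinomial univ α : ℕ) : ℝ) ^ 2) := by
    calc ((n + 1 : ℕ) : ℝ) ^ n * 1 = ((n + 1 : ℕ) : ℝ) ^ n := by ring
      _ ≤ _ := h4
      _ = _ := by ring
  exact le_of_mul_le_mul_left h6 h5

end Pool.Agent.H51.CN
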