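import Pool.Agent.H51.CN.Reduction
import Pool.Agent.H51.CN.Parseval

/-!
# Expansion of permanents of words along the first row
-/

open scoped Nat
open Finset Equiv

namespace Pool.Agent.H51.CN

theorem permanent_succ {n : ℕ} (M : Matrix (Fin (n + 1)) (Fin (n + 1)) ℂ) :
    M.permanent = ∑ p : Fin (n + 1), M 0 p * (M.submatrix Fin.succ p.succAbove).permanent := by
  have h0 : M.permanent = ∑ σ : Perm (Fin (n + 1)), ∏ i, M i (σ i) := by
    rw [← Matrix.permanent_transpose]
    rfl
  have h1 : ∀ p : Fin (n + 1), (M.submatrix Fin.succ p.succAbove).permanent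
      = ∑ σ : Perm (Fin n), ∏ i, M i.succ (p.succAbove (σ i)) := by
    intro p
    rw [← Matrix.permanent_transpose]
    rfl
  rw [h0, Finset.univ_perm_fin_succ, ← Finset.univ_product_univ, Finset.sum_map,
    Finset.sum_product]
  refine Finset.sum_congr rfl fun p _ => ?_
  rw [h1, Finset.mul_sum]
  simp only [Equiv.toEmbedding_apply, Fin.prod_univ_succ,
    Equiv.Perm.decomposeFin_symm_apply_zero, Equiv.Perm.decomposeFin_symm_apply_succ]
  refine Fin.cases ?_ (fun i => ?_) p
  · refine Finset.sum_congr rfl fun σ _ => ?_
    simp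
  · refine Fintype.sum_equiv (Equiv.mulLeft i.cycleRange) _ _ fun σ => ?_
    congr 1
    refine Finset.prod_congr rfl fun j _ => ?_
    rw [Equiv.coe_mulLeft, Equiv.Perm.mul_apply, Fin.succAbove_cycleRange]

/-- removing a letter from a word -/
theorem cnt_succAbove {n d : ℕ} (k : Fin (n + 1) → Fin d) (p : Fin (n + 1)) :
    cnt (fun i => k (p.succAbove i)) = Function.update (cnt k) (k p) (cnt k (k p) - 1) := by
  classical
  ext j
  have h1 : ∀ j, cnt k j = (if k p = j then 1 else 0) + cnt (fun i => k (p.succAbove i)) j := by
    intro j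
    unfold cnt
    rw [Finset.card_filter, Finset.card_filter, Fin.sum_univ_succAbove _ p]
  rcases eq_or_ne (k p) j with h | h
  · subst h
    rw [Function.update_self, h1 (k p), if_pos rfl]
    omega
  · rw [Function.update_of_ne h.symm, h1 j, if_neg h, zero_add]

/-- weights: permanents of words through the recursion for the content of the word -/
def q {d : ℕ} : (n : ℕ) → (Fin n → Fin d → ℂ) → (Fin d → ℕ) → ℂ
  | 0, _, α => if α = 0 then 1 else 0
  | n + 1, a, α => ∑ j, (α j : ℂ) * a 0 j *
      q n (fun i => a i.succ) (Function.update α j (α j - 1))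

theorem permanent_eq_q {d : ℕ} : ∀ (n : ℕ) (a : Fin n → Fin d → ℂ) (k : Fin n → Fin d),
    (Matrix.of fun i j => a i (k j)).permanent = q n a (cnt k) := by
  intro n
  induction n with
  | zero =>
    intro a k
    have : cnt k = 0 := by
      ext j
      simp [cnt]
    rw [q, this, if_pos rfl]
    simp [Matrix.permanent]
  | succ n ih =>
    intro a k
    rw [permanent_succ, q]
    have h1 : ∀ p : Fin (n + 1), ((Matrix.of fun i j => a i (k j)).submatrix Fin.succ
        p.succAbove).permanent = q n (fun i => a i.succ)
          (Function.update (cnt k) (k p) (cnt k (k p) - 1)) := by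
      intro p
      rw [← cnt_succAbove, ← ih]
      rfl
    simp only [h1, Matrix.of_apply]
    -- group the positions according to the letter
    have h2 : ∀ p : Fin (n + 1), a 0 (k p) * q n (fun i => a i.succ)
          (Function.update (cnt k) (k p) (cnt k (k p) - 1))
        = ∑ j : Fin d, if k p = j then a 0 j * q n (fun i => a i.succ)
          (Function.update (cnt k) j (cnt k j - 1)) else 0 := by
      intro p
      rw [Finset.sum_ite_eq]
      simp
    rw [Finset.sum_congr rfl fun p _ => h2 p, Finset.sum_comm]
    refine Finset.sum_congr rfl fun j _ => ?_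
    rw [← Finset.sum_filter, Finset.sum_const, nsmul_eq_mul]
    unfold cnt
    ring

end Pool.Agent.H51.CN
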