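import Pool.Agent.H51.CN.Joint
import Pool.Agent.H51.CN.Defs

/-!
# The norm of a symmetric product is at least every permanent of joint eigenvalues
-/

open scoped InnerProductSpace Nat
open Filter Topology

namespace Pool.Agent.H51.CN

variable {n : ℕ} {H T : Type*} [NormedAddCommGroup H] [InnerProductSpace ℂ H] [CompleteSpace H]
  [NormedAddCommGroup T] [InnerProductSpace ℂ T]

theorem norm_tau {τ : MultilinearMap ℂ (fun _ : Fin n => H) T} (hτ : IsTensorPower τ)
    (x : Fin n → H) : ‖τ x‖ = ∏ i, ‖x i‖ := by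
  have h := hτ.inner_eq x x
  simp only [inner_self_eq_norm_sq_to_K] at h
  have h2 : ‖τ x‖ ^ 2 = (∏ i, ‖x i‖) ^ 2 := by
    rw [← Finset.prod_pow]
    exact_mod_cast h
  exact (pow_left_inj₀ (norm_nonneg _) (Finset.prod_nonneg fun _ _ => norm_nonneg _)
    two_ne_zero).mp h2

/-- Approximate joint eigenvectors, chosen as a function of the joint eigenvalue. -/
noncomputable def appr {ι : Type*} (A : ι → H →L[ℂ] H) (l : ι → ℂ) (m : ℕ) : H := by
  classical
  exact if h : JAE A l then (h (1 / ((m : ℝ) + 1)) (by positivity)).choose else 0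

theorem appr_spec {ι : Type*} {A : ι → H →L[ℂ] H} {l : ι → ℂ} (h : JAE A l) (m : ℕ) :
    ‖appr A l m‖ = 1 ∧ ∀ j, ‖A j (appr A l m) - l j • appr A l m‖ ≤ 1 / ((m : ℝ) + 1) := by
  have := (h (1 / ((m : ℝ) + 1)) (by positivity)).choose_spec
  unfold appr
  rw [dif_pos h]
  exact this

theorem tendsto_eps : Tendsto (fun m : ℕ => 1 / ((m : ℝ) + 1)) atTop (𝓝 0) :=
  tendsto_one_div_add_atTop_nhds_zero_nat

/-- approximate eigenvectors for different joint eigenvalues are asymptotically orthogonal -/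
theorem inner_appr_tendsto {ι : Type*} {A : ι → H →L[ℂ] H} (hn : ∀ i, IsStarNormal (A i))
    {l l' : ι → ℂ} (h : JAE A l) (h' : JAE A l') [Decidable (l = l')] :
    Tendsto (fun m : ℕ => ⟪appr A l m, appr A l' m⟫_ℂ) atTop (𝓝 (if l = l' then 1 else 0)) := by
  split_ifs with hl
  · subst hl
    refine tendsto_const_nhds.congr fun m => ?_
    rw [inner_self_eq_norm_sq_to_K, (appr_spec h m).1]
    simp
  · obtain ⟨j, hj⟩ := Function.ne_iff.mp hl
    have hd : 0 < ‖l j - l' j‖ := norm_pos_iff.mpr (sub_ne_zero.mpr hj)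
    have key : ∀ m : ℕ, ‖⟪appr A l m, appr A l' m⟫_ℂ‖ ≤ (2 / ‖l j - l' j‖) * (1 / ((m : ℝ) + 1)) := by
      intro m
      set x := appr A l m with hx
      set y := appr A l' m with hy
      obtain ⟨hx1, hx2⟩ := appr_spec h m
      obtain ⟨hy1, hy2⟩ := appr_spec h' m
      rw [← hx] at hx1 hx2
      rw [← hy] at hy1 hy2
      -- the adjoint of `A j - l j` applied to `x`
      have hnorm : IsStarNormal (A j - l j • (1 : H →L[ℂ] H)) := by
        have h0 : Commute (star (A j)) (A j) := (hn j).star_comm_self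
        refine ⟨?_⟩
        rw [star_sub, star_smul, star_one]
        exact (h0.sub_right (Commute.smul_right (Commute.one_right _) _)).sub_left
          (Commute.smul_left (Commute.one_left _) _)
      have hadj : ‖ContinuousLinearMap.adjoint (A j - l j • (1 : H →L[ℂ] H)) x‖
          ≤ 1 / ((m : ℝ) + 1) := by
        rw [← ContinuousLinearMap.isStarNormal_iff_norm_eq_adjoint.mp hnorm x]
        simpa using hx2 j
      have e1 : ⟪x, (A j - l j • (1 : H →L[ℂ] H)) y⟫_ℂ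
          = ⟪ContinuousLinearMap.adjoint (A j - l j • (1 : H →L[ℂ] H)) x, y⟫_ℂ := by
        rw [ContinuousLinearMap.adjoint_inner_left]
      have e2 : ⟪x, (A j - l j • (1 : H →L[ℂ] H)) y⟫_ℂ
          = ⟪x, A j y - l' j • y⟫_ℂ + (l' j - l j) * ⟪x, y⟫_ℂ := by
        simp only [ContinuousLinearMap.sub_apply, ContinuousLinearMap.smul_apply,
          ContinuousLinearMap.one_apply, inner_sub_right, inner_smul_right]
        ring
      have e3 : (l j - l' j) * ⟪x, y⟫_ℂ = ⟪x, A j y - l' j • y⟫_ℂ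
          - ⟪ContinuousLinearMap.adjoint (A j - l j • (1 : H →L[ℂ] H)) x, y⟫_ℂ := by
        rw [← e1, e2]; ring
      have e4 : ‖(l j - l' j) * ⟪x, y⟫_ℂ‖ ≤ 2 * (1 / ((m : ℝ) + 1)) := by
        rw [e3]
        refine (norm_sub_le _ _).trans ?_
        have f1 := norm_inner_le_norm (𝕜 := ℂ) x (A j y - l' j • y)
        have f2 := norm_inner_le_norm (𝕜 := ℂ)
          (ContinuousLinearMap.adjoint (A j - l j • (1 : H →L[ℂ] H)) x) y
        rw [hx1, one_mul] at f1
        rw [hy1, mul_one] at f2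
        linarith [hy2 j]
      rw [norm_mul] at e4
      rw [div_mul_eq_mul_div, le_div_iff₀ hd, mul_comm]
      exact e4
    refine squeeze_zero_norm key ?_
    simpa using tendsto_eps.const_mul (2 / ‖l j - l' j‖)

/-- Lipschitz estimate for elementary tensors. -/
theorem norm_tau_sub_le {τ : MultilinearMap ℂ (fun _ : Fin n => H) T} (hτ : IsTensorPower τ)
    (u w : Fin n → H) {C δ : ℝ} (hC : 0 ≤ C) (hδ : 0 ≤ δ) (hu : ∀ i, ‖u i‖ ≤ C)
    (hw : ∀ i, ‖w i‖ ≤ C) (hd : ∀ i, ‖u i - w i‖ ≤ δ) :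
    ‖τ u - τ w‖ ≤ n * C ^ (n - 1) * δ := by
  let f : ContinuousMultilinearMap ℂ (fun _ : Fin n => H) T :=
    τ.mkContinuous 1 (fun m => by rw [norm_tau hτ, one_mul])
  have hf : ‖f‖ ≤ 1 := MultilinearMap.mkContinuous_norm_le _ zero_le_one _
  have h1 := f.norm_image_sub_le u w
  have h2 : ‖f u - f w‖ = ‖τ u - τ w‖ := rfl
  rw [h2, Fintype.card_fin] at h1
  refine h1.trans ?_
  have hmax : max ‖u‖ ‖w‖ ≤ C := by
    refine max_le ?_ ?_
    · exact (pi_norm_le_iff_of_nonneg hC).mpr hu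
    · exact (pi_norm_le_iff_of_nonneg hC).mpr hw
  have hsub : ‖u - w‖ ≤ δ := (pi_norm_le_iff_of_nonneg hδ).mpr hd
  have h3 : max ‖u‖ ‖w‖ ^ (n - 1) ≤ C ^ (n - 1) :=
    pow_le_pow_left₀ (le_max_of_le_left (norm_nonneg _)) hmax _
  have h4 : (0 : ℝ) ≤ max ‖u‖ ‖w‖ ^ (n - 1) := pow_nonneg (le_max_of_le_left (norm_nonneg _)) _
  calc ‖f‖ * n * max ‖u‖ ‖w‖ ^ (n - 1) * ‖u - w‖
      ≤ 1 * n * C ^ (n - 1) * δ := by gcongr
    _ = n * C ^ (n - 1) * δ := by ring

/-- The norm of the symmetric product is at least `(1/n!)` times any permanent of joint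
approximate eigenvalues. -/
theorem perm_le_norm {τ : MultilinearMap ℂ (fun _ : Fin n => H) T} (hτ : IsTensorPower τ)
    {A : Fin n → H →L[ℂ] H} (hn : ∀ i, IsStarNormal (A i)) {R : T →L[ℂ] T} (hR : IsAvg τ A R)
    (l : Fin n → Fin n → ℂ) (hl : ∀ j, JAE A (l j)) :
    ‖((n ! : ℂ)⁻¹) * ∑ σ : Equiv.Perm (Fin n), ∏ i, l i (σ i)‖
      ≤ ‖R.comp (symSub τ).subtypeL‖ := by
  classical
  set P : ℂ := ((n ! : ℂ)⁻¹) * ∑ σ : Equiv.Perm (Fin n), ∏ i, l i (σ i) with hP
  set y : ℕ → Fin n → H := fun m j => appr A (l j) m with hy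
  set v : ℕ → T := fun m => odot τ (y m) with hv
  have hvmem : ∀ m, v m ∈ symSub τ := fun m =>
    Submodule.le_topologicalClosure _ (Submodule.subset_span ⟨_, rfl⟩)
  -- limit of the square of the norm
  set L : ℝ := ((n ! : ℝ)⁻¹) ^ 2 * ∑ π : Equiv.Perm (Fin n), ∑ π' : Equiv.Perm (Fin n),
    ∏ i, (if l (π i) = l (π' i) then (1 : ℝ) else 0) with hL
  have hfac : (0 : ℝ) < (n ! : ℝ)⁻¹ := by positivity
  have hLpos : 0 < L := by
    refine mul_pos (by positivity) ?_
    refine Finset.sum_pos (fun π _ => ?_) ⟨1, Finset.mem_univ _⟩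
    refine Finset.sum_pos' (fun π' _ => Finset.prod_nonneg fun i _ => by split_ifs <;> norm_num)
      ⟨π, Finset.mem_univ _, ?_⟩
    simp
  have hlim : Tendsto (fun m => ‖v m‖ ^ 2) atTop (𝓝 L) := by
    have h1 : ∀ m, ((‖v m‖ ^ 2 : ℝ) : ℂ) = ((n ! : ℂ)⁻¹) ^ 2 * ∑ π : Equiv.Perm (Fin n),
        ∑ π' : Equiv.Perm (Fin n), ∏ i, ⟪y m (π i), y m (π' i)⟫_ℂ := by
      intro m
      have h2 : ((‖v m‖ ^ 2 : ℝ) : ℂ) = ⟪v m, v m⟫_ℂ := by
        rw [inner_self_eq_norm_sq_to_K]; norm_cast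
      rw [h2]
      simp only [hv, odot, inner_smul_left, inner_smul_right, sum_inner, inner_sum, hτ.inner_eq]
      have h3 : (starRingEnd ℂ) ((n ! : ℂ)⁻¹) = (n ! : ℂ)⁻¹ := by
        rw [map_inv₀, Complex.conj_natCast]
      rw [h3, ← Finset.mul_sum, ← mul_assoc, ← pow_two, Finset.sum_comm]
    have h2 : Tendsto (fun m => ((‖v m‖ ^ 2 : ℝ) : ℂ)) atTop (𝓝 (L : ℂ)) := by
      simp only [h1]
      have h3 : (L : ℂ) = ((n ! : ℂ)⁻¹) ^ 2 * ∑ π : Equiv.Perm (Fin n),
          ∑ π' : Equiv.Perm (Fin n), ∏ i, (if l (π i) = l (π' i) then (1 : ℂ) else 0) := by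
        rw [hL]
        push_cast
        simp only [apply_ite Complex.ofReal, Complex.ofReal_one, Complex.ofReal_zero]
      rw [h3]
      refine Tendsto.const_mul _ (tendsto_finset_sum _ fun π _ => tendsto_finset_sum _ fun π' _ =>
        tendsto_finset_prod _ fun i _ => ?_)
      exact inner_appr_tendsto hn (hl (π i)) (hl (π' i))
    have h4 := (Complex.continuous_re.tendsto _).comp h2
    simpa only [Function.comp_def, Complex.ofReal_re] using h4
  have herr : Tendsto (fun m => ‖R (v m) - P • v m‖) atTop (𝓝 0) := by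
    set C : ℝ := ∑ i, ‖A i‖ with hC
    have hC0 : 0 ≤ C := Finset.sum_nonneg fun _ _ => norm_nonneg _
    have hAC : ∀ i, ‖A i‖ ≤ C := fun i =>
      Finset.single_le_sum (f := fun i => ‖A i‖) (fun _ _ => norm_nonneg _) (Finset.mem_univ i)
    have h1 : ∀ m, R (v m) - P • v m = ((n ! : ℂ)⁻¹) • ∑ π : Equiv.Perm (Fin n),
        ((n ! : ℂ)⁻¹) • ∑ σ : Equiv.Perm (Fin n), (τ (fun i => A (σ i) (y m (π i)))
          - τ (fun i => l (π i) (σ i) • y m (π i))) := by
      intro m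
      have h2 : ∀ π : Equiv.Perm (Fin n), P • τ (fun i => y m (π i)) = ((n ! : ℂ)⁻¹) •
          ∑ σ : Equiv.Perm (Fin n), τ (fun i => l (π i) (σ i) • y m (π i)) := by
        intro π
        have h3 : ∀ σ : Equiv.Perm (Fin n), τ (fun i => l (π i) (σ i) • y m (π i))
            = (∏ i, l (π i) (σ i)) • τ (fun i => y m (π i)) := fun σ =>
          τ.map_smul_univ (fun i => l (π i) (σ i)) (fun i => y m (π i))
        simp only [h3]
        rw [← Finset.sum_smul, smul_smul]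
        congr 1
        rw [hP]
        congr 1
        refine Fintype.sum_equiv (Equiv.mulRight π) _ _ fun σ => ?_
        simp only [Equiv.coe_mulRight, Equiv.Perm.coe_mul, Function.comp_apply]
        exact (Equiv.prod_comp π (fun i => l i (σ i))).symm
      have hR' : ∀ π : Equiv.Perm (Fin n), R (τ (fun i => y m (π i))) = ((n ! : ℂ)⁻¹) •
          ∑ σ : Equiv.Perm (Fin n), τ (fun i => A (σ i) (y m (π i))) :=
        fun π => hR (fun i => y m (π i))
      simp only [hv, odot, map_smul, map_sum]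
      rw [smul_comm P, Finset.smul_sum (r := P), Finset.sum_congr rfl (fun π _ => h2 π),
        Finset.sum_congr rfl (fun π _ => hR' π), ← smul_sub, ← Finset.sum_sub_distrib]
      refine congrArg _ (Finset.sum_congr rfl fun π _ => ?_)
      rw [← smul_sub, ← Finset.sum_sub_distrib]
    have h5 : ∀ m, ‖R (v m) - P • v m‖ ≤ (n ! : ℝ)⁻¹ * ∑ π : Equiv.Perm (Fin n),
        (n ! : ℝ)⁻¹ * ∑ σ : Equiv.Perm (Fin n), (n * C ^ (n - 1) * (1 / ((m : ℝ) + 1))) := by
      intro m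
      have hnf : ‖((n ! : ℂ)⁻¹)‖ = (n ! : ℝ)⁻¹ := by
        rw [norm_inv, Complex.norm_natCast]
      rw [h1 m, norm_smul, hnf]
      refine mul_le_mul_of_nonneg_left ?_ hfac.le
      refine (norm_sum_le _ _).trans (Finset.sum_le_sum fun π _ => ?_)
      rw [norm_smul, hnf]
      refine mul_le_mul_of_nonneg_left ?_ hfac.le
      refine (norm_sum_le _ _).trans (Finset.sum_le_sum fun σ _ => ?_)
      refine norm_tau_sub_le hτ _ _ hC0 (by positivity) (fun i => ?_) (fun i => ?_) (fun i => ?_)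
      · refine ((A (σ i)).le_opNorm _).trans ?_
        rw [(appr_spec (hl (π i)) m).1, mul_one]
        exact hAC _
      · rw [norm_smul, (appr_spec (hl (π i)) m).1, mul_one]
        exact ((hl (π i)).norm_le (σ i)).trans (hAC _)
      · exact (appr_spec (hl (π i)) m).2 (σ i)
    refine squeeze_zero (fun m => norm_nonneg _) h5 ?_
    have h6 : Tendsto (fun m : ℕ => (n ! : ℝ)⁻¹ * ∑ π : Equiv.Perm (Fin n),
        (n ! : ℝ)⁻¹ * ∑ σ : Equiv.Perm (Fin n), (n * C ^ (n - 1) * (1 / ((m : ℝ) + 1)))) atTop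
        (𝓝 ((n ! : ℝ)⁻¹ * ∑ π : Equiv.Perm (Fin n),
        (n ! : ℝ)⁻¹ * ∑ σ : Equiv.Perm (Fin n), (n * C ^ (n - 1) * 0))) :=
      Tendsto.const_mul _ (tendsto_finset_sum _ fun π _ => Tendsto.const_mul _
        (tendsto_finset_sum _ fun σ _ => tendsto_eps.const_mul _))
    simpa using h6
  have hlim' : Tendsto (fun m => ‖v m‖) atTop (𝓝 (Real.sqrt L)) := by
    have := hlim.sqrt
    refine this.congr fun m => ?_
    exact Real.sqrt_sq (norm_nonneg _)
  have hsq : 0 < Real.sqrt L := Real.sqrt_pos.mpr hLpos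
  have hbound : ∀ m, ‖P‖ * ‖v m‖ ≤ ‖R.comp (symSub τ).subtypeL‖ * ‖v m‖ + ‖R (v m) - P • v m‖ := by
    intro m
    have h1 : ‖R (v m)‖ ≤ ‖R.comp (symSub τ).subtypeL‖ * ‖v m‖ := by
      have := (R.comp (symSub τ).subtypeL).le_opNorm ⟨v m, hvmem m⟩
      simpa using this
    have h2 : ‖P • v m‖ ≤ ‖R (v m)‖ + ‖R (v m) - P • v m‖ := by
      have := norm_sub_le (R (v m)) (R (v m) - P • v m)
      simpa using this
    rw [norm_smul] at h2
    linarith
  have hfin : ‖P‖ * Real.sqrt L ≤ ‖R.comp (symSub τ).subtypeL‖ * Real.sqrt L + 0 :=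
    le_of_tendsto_of_tendsto' (hlim'.const_mul _) ((hlim'.const_mul _).add herr) hbound
  rw [add_zero] at hfin
  exact le_of_mul_le_mul_right hfin hsq

end Pool.Agent.H51.CN
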