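import Pool.Agent.H51.CN.Laplace

/-!
# Kernel checkable computation of all permanents of words

Homogeneous polynomials in `d` variables over the Gaussian integers are stored as nested lists;
`mulLin` is the step of the recursion `q`.
-/

open scoped Nat
open Finset

namespace Pool.Agent.H51.CN

/-- nested lists of Gaussian integers -/
def NP : ℕ → Type
  | 0 => ℤ × ℤ
  | d + 1 => List (NP d)

/-- zip with addition, padding -/
def zipAdd {α : Type} (f : α → α → α) : List α → List α → List α
  | [], l => l
  | x :: l, [] => x :: l
  | x :: l, y :: l' => f x y :: zipAdd f l l'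

namespace NP

/-- addition -/
def add : (d : ℕ) → NP d → NP d → NP d
  | 0 => fun (x y : ℤ × ℤ) => ((x.1 + y.1, x.2 + y.2) : ℤ × ℤ)
  | d + 1 => fun (l l' : List (NP d)) => zipAdd (add d) l l'

/-- multiplication by a Gaussian integer -/
def smul (c : ℤ × ℤ) : (d : ℕ) → NP d → NP d
  | 0 => fun (x : ℤ × ℤ) => ((c.1 * x.1 - c.2 * x.2, c.1 * x.2 + c.2 * x.1) : ℤ × ℤ)
  | d + 1 => fun (l : List (NP d)) => l.map (smul c d)

/-- zero -/
def zero : (d : ℕ) → NP d
  | 0 => ((0, 0) : ℤ × ℤ)
  | _ + 1 => ([] : List (NP _))

/-- the constant one -/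
def one : (d : ℕ) → NP d
  | 0 => ((1, 0) : ℤ × ℤ)
  | d + 1 => ([one d] : List (NP d))

/-- weighted shift -/
def shift (c : ℤ × ℤ) (d : ℕ) : ℕ → List (NP d) → List (NP d)
  | _, [] => []
  | e, p :: l => smul (((e + 1 : ℕ) : ℤ) * c.1, ((e + 1 : ℕ) : ℤ) * c.2) d p :: shift c d (e + 1) l

/-- weighted multiplication by a linear form -/
def mulLin : (d : ℕ) → List (ℤ × ℤ) → NP d → NP d
  | 0, _ => fun _ => ((0, 0) : ℤ × ℤ)
  | _ + 1, [] => fun _ => ([] : List (NP _))
  | d + 1, c :: as => fun (l : List (NP d)) =>
      zipAdd (add d) (l.map (mulLin d as)) (zero d :: shift c d 0 l)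

/-- the coefficient -/
noncomputable def val : (d : ℕ) → NP d → (Fin d → ℕ) → ℂ
  | 0 => fun (x : ℤ × ℤ) _ => (x.1 : ℂ) + (x.2 : ℂ) * Complex.I
  | d + 1 => fun (l : List (NP d)) α =>
      (l[α 0]?).elim 0 (fun p => val d p (fun j => α j.succ))

/-- all coefficients have square of the absolute value at most `R` -/
def chk (R : ℤ) : (d : ℕ) → NP d → Bool
  | 0 => fun (x : ℤ × ℤ) => decide (x.1 * x.1 + x.2 * x.2 ≤ R)
  | d + 1 => fun (l : List (NP d)) => l.all (chk R d)

end NP

theorem zipAdd_getElem? {α : Type} (f : α → α → α) (l l' : List α) (i : ℕ) :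
    (zipAdd f l l')[i]? = match l[i]?, l'[i]? with
      | none, y => y
      | some x, none => some x
      | some x, some y => some (f x y) := by
  induction l generalizing l' i with
  | nil => simp [zipAdd]
  | cons x l ih =>
    cases l' with
    | nil =>
      simp only [zipAdd, List.getElem?_nil]
      cases (x :: l)[i]? <;> rfl
    | cons y l' =>
      cases i with
      | zero => simp [zipAdd]
      | succ i => simpa [zipAdd] using ih l' i

/-- the complex number of a Gaussian integer -/
noncomputable def toC (c : ℤ × ℤ) : ℂ := (c.1 : ℂ) + (c.2 : ℂ) * Complex.I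

namespace NP

theorem val_zero : ∀ (d : ℕ) (α : Fin d → ℕ), val d (zero d) α = 0
  | 0, α => by simp [val, zero]
  | d + 1, α => by simp [val, zero]

theorem val_add : ∀ (d : ℕ) (p p' : NP d) (α : Fin d → ℕ),
    val d (add d p p') α = val d p α + val d p' α := by
  intro d
  induction d with
  | zero =>
    intro p p' α
    simp only [val, add]
    push_cast
    ring
  | succ d ih =>
    intro (p : List (NP d)) (p' : List (NP d)) α
    change ((zipAdd (add d) p p')[α 0]?).elim 0 (fun p => val d p (fun j => α j.succ)) =
      (p[α 0]?).elim 0 (fun p => val d p (fun j => α j.succ)) +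
      (p'[α 0]?).elim 0 (fun p => val d p (fun j => α j.succ))
    rw [zipAdd_getElem?]
    rcases p[α 0]? with _ | x <;> rcases p'[α 0]? with _ | y
    · simp
    · simp
    · simp
    · simp [ih]

theorem val_smul (c : ℤ × ℤ) : ∀ (d : ℕ) (p : NP d) (α : Fin d → ℕ),
    val d (smul c d p) α = toC c * val d p α := by
  intro d
  induction d with
  | zero =>
    intro p α
    simp only [val, smul, toC]
    push_cast
    linear_combination (-(c.2 : ℂ) * (p : ℤ × ℤ).2) * Complex.I_sq
  | succ d ih =>
    intro (p : List (NP d)) α
    change ((p.map (smul c d))[α 0]?).elim 0 (fun p => val d p (fun j => α j.succ)) =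
      toC c * (p[α 0]?).elim 0 (fun p => val d p (fun j => α j.succ))
    rw [List.getElem?_map]
    rcases p[α 0]? with _ | x
    · simp
    · simp [ih]

theorem val_one : ∀ (d : ℕ) (α : Fin d → ℕ), val d (one d) α = if α = 0 then 1 else 0 := by
  intro d
  induction d with
  | zero =>
    intro α
    have : α = 0 := Subsingleton.elim _ _
    simp [val, one, this]
  | succ d ih =>
    intro α
    change (([one d] : List (NP d))[α 0]?).elim 0 (fun p => val d p (fun j => α j.succ)) = _
    rcases Nat.eq_zero_or_pos (α 0) with h | h
    · rw [h]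
      have h1 : ([one d] : List (NP d))[0]? = some (one d) := rfl
      rw [h1]
      simp only [Option.elim]
      rw [ih]
      have h2 : ((fun j : Fin d => α j.succ) = 0) ↔ α = 0 := by
        constructor
        · intro h3
          ext j
          refine Fin.cases h (fun i => ?_) j
          exact congrFun h3 i
        · intro h3
          rw [h3]
          rfl
      simp only [h2]
    · have h1 : ([one d] : List (NP d))[α 0]? = none := by
        rw [List.getElem?_eq_none_iff]
        simpa using Nat.succ_le_of_lt h
      have h2 : ¬ α = 0 := fun h3 => by rw [h3] at h; simp at h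
      rw [h1, if_neg h2]
      rfl

theorem shift_getElem? (c : ℤ × ℤ) (d : ℕ) : ∀ (e : ℕ) (l : List (NP d)) (i : ℕ),
    (shift c d e l)[i]? = (l[i]?).map
      (fun p => smul (((e + i + 1 : ℕ) : ℤ) * c.1, ((e + i + 1 : ℕ) : ℤ) * c.2) d p) := by
  intro e l
  induction l generalizing e with
  | nil => intro i; simp [shift]
  | cons p l ih =>
    intro i
    cases i with
    | zero => simp [shift]
    | succ i =>
      simp only [shift, List.getElem?_cons_succ]
      rw [ih (e + 1) i]
      have : e + 1 + i + 1 = e + (i + 1) + 1 := by ring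
      rw [this]

theorem val_mulLin : ∀ (d : ℕ) (as : List (ℤ × ℤ)) (_ : as.length = d) (p : NP d)
    (α : Fin d → ℕ), val d (mulLin d as p) α
      = ∑ j : Fin d, (α j : ℂ) * toC (as.getD j (0, 0)) *
        val d p (Function.update α j (α j - 1)) := by
  intro d
  induction d with
  | zero =>
    intro as _ p α
    simp [val, mulLin]
  | succ d ih =>
    intro as has (l : List (NP d)) α
    cases as with
    | nil => simp at has
    | cons c as =>
      have has' : as.length = d := by simpa using has
      have hv : ∀ (l : List (NP d)) (β : Fin (d + 1) → ℕ), val (d + 1) l β =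
          (l[β 0]?).elim 0 (fun p => val d p (fun j => β j.succ)) := fun l β => rfl
      have h1 : val (d + 1) (mulLin (d + 1) (c :: as) l) α
          = val (d + 1) (l.map (mulLin d as) : List (NP d)) α
            + val (d + 1) (zero d :: shift c d 0 l : List (NP d)) α :=
        val_add (d + 1) _ _ α
      rw [h1, Fin.sum_univ_succ, add_comm]
      congr 1
      · -- the first variable
        rw [hv]
        rcases Nat.eq_zero_or_pos (α 0) with h | h
        · rw [h]
          simp [val_zero]
        · obtain ⟨m, hm⟩ : ∃ m, α 0 = m + 1 := ⟨α 0 - 1, by omega⟩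
          rw [hm, List.getElem?_cons_succ, shift_getElem?, hv]
          have h2 : (Function.update α 0 (m + 1 - 1)) 0 = m := by simp
          have h3 : (fun j : Fin d => (Function.update α 0 (m + 1 - 1)) j.succ)
              = fun j => α j.succ := by
            ext j
            rw [Function.update_of_ne (Fin.succ_ne_zero j)]
          rw [h2, h3]
          rcases l[m]? with _ | x
          · simp
          · simp only [Option.map_some, Option.elim, val_smul]
            rw [zero_add]
            have h4 : toC (((m + 1 : ℕ) : ℤ) * c.1, ((m + 1 : ℕ) : ℤ) * c.2)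
                = ((m + 1 : ℕ) : ℂ) * toC c := by
              unfold toC
              push_cast
              ring
            rw [h4]
            simp
      · rw [hv, List.getElem?_map]
        have h5 : ∀ j : Fin d, val (d + 1) l (Function.update α j.succ (α j.succ - 1))
            = (l[α 0]?).elim 0 (fun p => val d p
              (Function.update (fun j => α j.succ) j (α j.succ - 1))) := by
          intro j
          rw [hv]
          have h6 : (Function.update α j.succ (α j.succ - 1)) 0 = α 0 :=
            Function.update_of_ne (Fin.succ_ne_zero j).symm _ _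
          have h7 : (fun i : Fin d => (Function.update α j.succ (α j.succ - 1)) i.succ)
              = Function.update (fun j => α j.succ) j (α j.succ - 1) := by
            ext i
            rcases eq_or_ne i j with rfl | hij
            · simp
            · rw [Function.update_of_ne (fun h => hij (Fin.succ_injective _ h)),
                Function.update_of_ne hij]
          rw [h6, h7]
        rw [Finset.sum_congr rfl fun j _ => by rw [h5 j]]
        rcases l[α 0]? with _ | x
        · simp
        · simp only [Option.map_some, Option.elim]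
          rw [ih as has' x]
          refine Finset.sum_congr rfl fun j _ => ?_
          simp

theorem chk_sound (R : ℤ) (hR : 0 ≤ R) : ∀ (d : ℕ) (p : NP d), chk R d p = true →
    ∀ α : Fin d → ℕ, ‖val d p α‖ ^ 2 ≤ (R : ℝ) := by
  intro d
  induction d with
  | zero =>
    intro p hp α
    have h1 : (p : ℤ × ℤ).1 * (p : ℤ × ℤ).1 + (p : ℤ × ℤ).2 * (p : ℤ × ℤ).2 ≤ R :=
      of_decide_eq_true hp
    change ‖((p : ℤ × ℤ).1 : ℂ) + ((p : ℤ × ℤ).2 : ℂ) * Complex.I‖ ^ 2 ≤ (R : ℝ)
    have h2 : ‖((p : ℤ × ℤ).1 : ℂ) + ((p : ℤ × ℤ).2 : ℂ) * Complex.I‖ ^ 2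
        = ((p : ℤ × ℤ).1 : ℝ) * (p : ℤ × ℤ).1 + ((p : ℤ × ℤ).2 : ℝ) * (p : ℤ × ℤ).2 := by
      rw [← Complex.normSq_eq_norm_sq, Complex.normSq_apply]
      simp
    rw [h2]
    exact_mod_cast h1
  | succ d ih =>
    intro (p : List (NP d)) hp α
    change ‖(p[α 0]?).elim 0 (fun p => val d p (fun j => α j.succ))‖ ^ 2 ≤ (R : ℝ)
    have hall : ∀ x ∈ p, chk R d x = true := by
      have : p.all (chk R d) = true := hp
      exact List.all_eq_true.mp this
    rcases h : p[α 0]? with _ | x
    · simp only [Option.elim, norm_zero]
      have : (0 : ℝ) ≤ R := by exact_mod_cast hR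
      simpa using this
    · simp only [Option.elim]
      exact ih x (hall x (List.mem_of_getElem? h)) _

end NP

/-- product of the rows -/
def rowsProd (d : ℕ) : List (List (ℤ × ℤ)) → NP d
  | [] => NP.one d
  | r :: rs => NP.mulLin d r (rowsProd d rs)

theorem val_rowsProd {d : ℕ} : ∀ (n : ℕ) (rs : List (List (ℤ × ℤ))) (_ : rs.length = n)
    (_ : ∀ r ∈ rs, r.length = d) (α : Fin d → ℕ),
    NP.val d (rowsProd d rs) α
      = q n (fun i j => toC ((rs.getD i []).getD j (0, 0))) α := by
  intro n
  induction n with
  | zero =>
    intro rs h _ α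
    have : rs = [] := List.length_eq_zero_iff.mp h
    subst this
    rw [rowsProd, NP.val_one, q]
  | succ n ih =>
    intro rs h hd α
    cases rs with
    | nil => simp at h
    | cons r rs =>
      have h1 : rs.length = n := by simpa using h
      rw [rowsProd, NP.val_mulLin d r (hd r (by simp)), q]
      refine Finset.sum_congr rfl fun j _ => ?_
      rw [ih rs h1 (fun r' hr' => hd r' (by simp [hr']))]
      simp

/-- The certificate: a list of `n` rows of `n` Gaussian integers with diagonal `D`, entries of
absolute value at most `D`, such that all the weighted coefficients of the product have square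
at most `R`. -/
def cert (n : ℕ) (D R : ℤ) (rs : List (List (ℤ × ℤ))) : Bool :=
  decide (0 < D) && decide (0 ≤ R) && decide (rs.length = n) && rs.all (fun r => r.length == n) &&
  rs.all (fun r => r.all fun c => decide (c.1 * c.1 + c.2 * c.2 ≤ D * D)) &&
  ((List.range n).all fun i => ((rs.getD i []).getD i (0, 0)) == (D, 0)) &&
  NP.chk R n (rowsProd n rs)

end Pool.Agent.H51.CN
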